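import Mathlib

/-!
The ring `ℤ[1/N]` and the certificate, for the Baumslag-Solitar groups `BS(1,n)`.
-/

set_option autoImplicit false

namespace Pool.Agent.H747BS

/-- the ring `ℤ[1/N]` -/
def D (N : ℕ) : Subring ℚ := Subring.closure {((N : ℚ))⁻¹}

/-- what the certificate predicate must satisfy, for the prime `l` -/
structure Cert (l : ℕ) (C : ℤ → ℤ → Prop) : Prop where
  sound : ∀ u y : ℤ, y ≠ 0 → C u y → ∀ d : ℕ, 1 < d → Nat.Coprime d l → (d : ℤ) ∣ y →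
    IsCoprime (d : ℤ) u → False
  complete : ∀ x : ℕ, 1 ≤ x → ∀ s : ℕ, C x ((x * l ^ (s + 1) : ℕ) : ℤ)

/-- the polynomial `Φ_l(z ^ K) = ∑_{i < l} (z ^ K) ^ i` -/
def Fpoly {R : Type} [CommRing R] (l K : ℕ) (z : R) : R := ∑ i ∈ Finset.range l, (z ^ K) ^ i

/-- multiples of powers of `l ^ 4` -/
def PL (l : ℕ) (C : ℤ → ℤ → Prop) (Q : ℤ) : Prop := (l : ℤ) ∣ Q ∧ (l : ℤ) ^ 4 - 1 ∣ Q - 1 ∧ C 1 Q

/-- squares of powers of `l ^ 4` -/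
def SqQ (l : ℕ) (C : ℤ → ℤ → Prop) (Q R : ℤ) : Prop :=
  PL l C Q ∧ PL l C R ∧ Q ∣ R ∧ Q + 1 ∣ R + Q ∧ C (Q + 1) (R + Q)

/-- squares of numbers prime to `l`, in terms of divisibility and `SqQ` -/
def OSq (l : ℕ) (C : ℤ → ℤ → Prop) (x y : ℤ) : Prop := ∃ t : Fin 4 → ℤ,
  -- Q = t 0, Q2 = t 1, Q4 = t 2, Y = t 3
  SqQ l C (t 0) (t 1) ∧ SqQ l C (t 1) (t 2) ∧ x ∣ t 0 - 1 ∧ (t 1 ∣ t 3 ∧ t 1 - 1 ∣ t 3 - x ∧
    t 1 + 1 ∣ t 3 + x) ∧ t 3 ∣ t 2 - t 1 ∧ y ∣ t 1 - 2 * t 0 + 1 ∧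
    x + 2 * t 1 ∣ y + 4 * t 3 + 4 * t 2

theorem mem_D {N : ℕ} (hN : N ≠ 0) (q : ℚ) :
    q ∈ D N ↔ ∃ (l : ℤ) (i : ℕ), q = l / (N : ℚ) ^ i := by
  have hN' : (N : ℚ) ≠ 0 := by exact_mod_cast hN
  constructor
  · intro h
    induction h using Subring.closure_induction with
    | mem x hx => exact ⟨1, 1, by rw [Set.mem_singleton_iff.1 hx]; simp⟩
    | zero => exact ⟨0, 0, by simp⟩
    | one => exact ⟨1, 0, by simp⟩
    | add x y _ _ hx hy =>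
      obtain ⟨l, i, rfl⟩ := hx
      obtain ⟨l', i', rfl⟩ := hy
      exact ⟨l * N ^ i' + l' * N ^ i, i + i', by push_cast; rw [pow_add]; field_simp⟩
    | neg x _ hx =>
      obtain ⟨l, i, rfl⟩ := hx
      exact ⟨-l, i, by push_cast; ring⟩
    | mul x y _ _ hx hy =>
      obtain ⟨l, i, rfl⟩ := hx
      obtain ⟨l', i', rfl⟩ := hy
      exact ⟨l * l', i + i', by push_cast; rw [pow_add]; field_simp⟩
  · rintro ⟨l, i, rfl⟩
    have h1 : ((N : ℚ))⁻¹ ∈ D N := Subring.subset_closure (Set.mem_singleton _)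
    have h2 : (l : ℚ) / (N : ℚ) ^ i = (l : ℚ) * ((N : ℚ))⁻¹ ^ i := by
      rw [inv_pow]; rfl
    rw [h2]
    exact (D N).mul_mem (intCast_mem _ l) ((D N).pow_mem h1 i)

theorem int_mem (N : ℕ) (l : ℤ) : (l : ℚ) ∈ D N := intCast_mem _ l

theorem zpow_mem {N : ℕ} (hN : N ≠ 0) (y : ℤ) : (N : ℚ) ^ y ∈ D N := by
  rw [mem_D hN]
  rcases Int.eq_nat_or_neg y with ⟨n, rfl | rfl⟩
  · exact ⟨N ^ n, 0, by simp⟩
  · exact ⟨1, n, by simp⟩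

/-- an integer prime to `N` divides an integer `b` as soon as it does so in `ℤ[1/N]` -/
theorem coprime_dvd {N : ℕ} (hN : N ≠ 0) {M b : ℤ} (hM : IsCoprime M (N : ℤ)) {w : ℚ}
    (hw : w ∈ D N) (h : (b : ℚ) = M * w) : M ∣ b := by
  have hN' : (N : ℚ) ≠ 0 := by exact_mod_cast hN
  obtain ⟨l, i, rfl⟩ := (mem_D hN w).1 hw
  have h1 : b * (N : ℤ) ^ i = M * l := by
    have : (b : ℚ) * (N : ℚ) ^ i = M * l := by
      rw [h]; field_simp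
    exact_mod_cast this
  have hc : IsCoprime M ((N : ℤ) ^ i) := hM.pow_right
  exact hc.dvd_of_dvd_mul_right ⟨l, h1⟩

theorem expand {N : ℕ} (x : ℚ) (hx0 : x ≠ 0) (hx : x ∈ D N) (hi : x⁻¹ ∈ D N) (n : ℤ) :
    ∃ (c : ℤ) (α : ℚ), α ∈ D N ∧ 2 * c + n = n * n ∧
      x ^ n = 1 + (x - 1) * (n + c * (x - 1) + (x - 1) ^ 2 * α) := by
  have hY : x - 1 ∈ D N := (D N).sub_mem hx (D N).one_mem
  induction n using Int.induction_on with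
  | zero => exact ⟨0, 0, (D N).zero_mem, by ring, by simp⟩
  | succ i ih =>
    obtain ⟨c, α, hα, hc, he⟩ := ih
    refine ⟨c + i, c + α + (x - 1) * α, (D N).add_mem ((D N).add_mem (int_mem N c) hα)
      ((D N).mul_mem hY hα), by linarith, ?_⟩
    rw [zpow_add_one₀ hx0, he]
    push_cast
    ring
  | pred i ih =>
    obtain ⟨c, α, hα, hc, he⟩ := ih
    refine ⟨c + i + 1, (α - (c + i + 1 : ℤ)) * x⁻¹, (D N).mul_mem ((D N).sub_mem hα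
      (int_mem N _)) hi, by linarith, ?_⟩
    rw [zpow_sub_one₀ hx0, he]
    have hxx : x * x⁻¹ = 1 := mul_inv_cancel₀ hx0
    push_cast
    field_simp
    ring

theorem dvdD_of {N : ℕ} (hN : N ≠ 0) {y e : ℤ} (h : y ∣ e) :
    ∃ A ∈ D N, ((N : ℚ) ^ y - 1) * A = (N : ℚ) ^ e - 1 := by
  have hN' : (N : ℚ) ≠ 0 := by exact_mod_cast hN
  obtain ⟨n, rfl⟩ := h
  obtain ⟨c, α, hα, hc, he⟩ := expand ((N : ℚ) ^ y) (zpow_ne_zero _ hN') (zpow_mem hN y)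
    (by rw [← zpow_neg]; exact zpow_mem hN _) n
  have hY : (N : ℚ) ^ y - 1 ∈ D N := (D N).sub_mem (zpow_mem hN y) (D N).one_mem
  refine ⟨n + c * ((N : ℚ) ^ y - 1) + ((N : ℚ) ^ y - 1) ^ 2 * α,
    (D N).add_mem ((D N).add_mem (int_mem N n) ((D N).mul_mem (int_mem N c) hY))
      ((D N).mul_mem ((D N).pow_mem hY 2) hα), ?_⟩
  rw [zpow_mul, he]
  ring

theorem coprime_pow_sub_one {N : ℕ} (n : ℕ) (hn : 1 ≤ n) :
    IsCoprime ((N : ℤ) ^ n - 1) (N : ℤ) := by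
  obtain ⟨k, rfl⟩ : ∃ k, n = k + 1 := ⟨n - 1, by omega⟩
  exact ⟨-1, (N : ℤ) ^ k, by rw [pow_succ]; ring⟩

end Pool.Agent.H747BS
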