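import Mathlib
import Pool.Agent.H747BS.A0

/-!
The Baumslag-Solitar group `BS(1,n)`, `|n| ≥ 2`: the affine representation and the normal form.
-/

set_option autoImplicit false

namespace Pool.Agent.H747BS

/-- affine maps `y ↦ n ^ m y + x` -/
@[ext] structure Aff (n : ℤ) where
  x : ℚ
  m : ℤ

/-- the standing hypothesis on the base -/
abbrev Hyp (n : ℤ) : Prop := Fact (2 ≤ |n|)

theorem ne0 (n : ℤ) [h : Hyp n] : (n : ℚ) ≠ 0 := by
  have h1 := h.out
  intro h2
  have h3 : n = 0 := by exact_mod_cast h2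
  rw [h3] at h1
  norm_num at h1

theorem zpow_inj (n : ℤ) [h : Hyp n] {a b : ℤ} (e : (n : ℚ) ^ a = (n : ℚ) ^ b) : a = b := by
  have h1 : (1 : ℚ) < |(n : ℚ)| := by
    have := h.out
    have h2 : ((2 : ℤ) : ℚ) ≤ ((|n| : ℤ) : ℚ) := by exact_mod_cast this
    push_cast at h2
    linarith
  have h2 : |(n : ℚ)| ^ a = |(n : ℚ)| ^ b := by rw [← abs_zpow, ← abs_zpow, e]
  exact zpow_right_injective₀ (by linarith) h1.ne' h2

namespace Aff

variable {n : ℤ}

instance : Mul (Aff n) := ⟨fun g h => ⟨g.x + (n : ℚ) ^ g.m * h.x, g.m + h.m⟩⟩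
instance : One (Aff n) := ⟨⟨0, 0⟩⟩
instance : Inv (Aff n) := ⟨fun g => ⟨-((n : ℚ) ^ (-g.m) * g.x), -g.m⟩⟩

@[simp] theorem mul_x (g h : Aff n) : (g * h).x = g.x + (n : ℚ) ^ g.m * h.x := rfl
@[simp] theorem mul_m (g h : Aff n) : (g * h).m = g.m + h.m := rfl
@[simp] theorem one_x : (1 : Aff n).x = 0 := rfl
@[simp] theorem one_m : (1 : Aff n).m = 0 := rfl
@[simp] theorem inv_x (g : Aff n) : (g⁻¹).x = -((n : ℚ) ^ (-g.m) * g.x) := rfl
@[simp] theorem inv_m (g : Aff n) : (g⁻¹).m = -g.m := rfl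

instance [Hyp n] : Group (Aff n) := Group.ofLeftAxioms
  (by
    intro a b c
    ext
    · simp only [mul_x, mul_m]
      rw [zpow_add₀ (ne0 n)]
      ring
    · simp only [mul_m]; ring)
  (by
    intro a
    ext
    · simp
    · simp)
  (by
    intro a
    ext
    · simp
    · simp)

end Aff

/-- the relator `t a t⁻¹ a⁻ⁿ` of `BS(1,n)`; `a` is generator `0` and `t` is generator `1` -/
def rel (n : ℤ) : FreeGroup (Fin 2) :=
  FreeGroup.of 1 * FreeGroup.of 0 * (FreeGroup.of 1)⁻¹ * (FreeGroup.of 0 ^ n)⁻¹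

/-- the Baumslag-Solitar group `BS(1,n)` -/
abbrev G (n : ℤ) : Type := PresentedGroup ({rel n} : Set (FreeGroup (Fin 2)))

variable (n : ℤ)

def ga : G n := PresentedGroup.of 0
def gt : G n := PresentedGroup.of 1

theorem rel_eq : gt n * ga n * (gt n)⁻¹ = (ga n) ^ n := by
  have h : (PresentedGroup.mk ({rel n} : Set (FreeGroup (Fin 2)))) (rel n) = 1 :=
    PresentedGroup.one_of_mem (Set.mem_singleton _)
  have e : gt n * ga n * (gt n)⁻¹ * ((ga n) ^ n)⁻¹ = 1 := by
    rw [← h]
    simp only [rel, map_mul, map_inv, map_zpow]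
    rfl
  exact mul_inv_eq_one.1 e

/-- a homomorphism out of `BS(1,n)` -/
def lft {H : Type*} [Group H] (a t : H) (h : t * a * t⁻¹ = a ^ n) : G n →* H :=
  PresentedGroup.toGroup (f := fun i : Fin 2 => if i = 0 then a else t) (by
    intro r hr
    rw [Set.mem_singleton_iff] at hr
    subst hr
    simp only [rel, map_mul, map_inv, map_zpow, FreeGroup.lift_apply_of]
    simp [h])

theorem lft_ga {H : Type*} [Group H] (a t : H) (h : t * a * t⁻¹ = a ^ n) :
    lft n a t h (ga n) = a := by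
  unfold lft ga
  rw [PresentedGroup.toGroup.of]
  simp

theorem lft_gt {H : Type*} [Group H] (a t : H) (h : t * a * t⁻¹ = a ^ n) :
    lft n a t h (gt n) = t := by
  unfold lft gt
  rw [PresentedGroup.toGroup.of]
  simp

theorem aff_zpow [Hyp n] (l : ℤ) : ((⟨1, 0⟩ : Aff n)) ^ l = ⟨l, 0⟩ := by
  have h : ∀ k : ℕ, ((⟨1, 0⟩ : Aff n)) ^ k = ⟨k, 0⟩ := by
    intro k
    induction k with
    | zero => simp; rfl
    | succ k ih =>
      rw [pow_succ, ih]
      ext <;> simp
  rcases Int.eq_nat_or_neg l with ⟨k, rfl | rfl⟩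
  · rw [zpow_natCast, h]; simp
  · rw [zpow_neg, zpow_natCast, h]
    ext <;> simp

/-- the affine representation -/
def rho [Hyp n] : G n →* Aff n := lft n ⟨1, 0⟩ ⟨0, 1⟩ (by
  rw [aff_zpow]
  ext <;> simp)

@[simp] theorem rho_ga [Hyp n] : rho n (ga n) = ⟨1, 0⟩ := lft_ga _ _ _ _
@[simp] theorem rho_gt [Hyp n] : rho n (gt n) = ⟨0, 1⟩ := lft_gt _ _ _ _

theorem conj_pow (i : ℕ) (l : ℤ) : (gt n) ^ i * (ga n) ^ l = (ga n) ^ (n ^ i * l) * (gt n) ^ i := by
  induction i generalizing l with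
  | zero => simp
  | succ i ih =>
    have h1 : gt n * (ga n) ^ l = (ga n) ^ (n * l) * gt n := by
      have : gt n * (ga n) ^ l * (gt n)⁻¹ = (ga n) ^ (n * l) := by
        rw [← conj_zpow, rel_eq, ← zpow_mul]
      rw [← this]; group
    rw [pow_succ, mul_assoc, h1, ← mul_assoc, ih, mul_assoc, ← pow_succ]
    congr 2
    rw [pow_succ]; ring

theorem ga_eq (i : ℕ) (l : ℤ) :
    (ga n) ^ l = ((gt n) ^ i)⁻¹ * (ga n) ^ (n ^ i * l) * (gt n) ^ i := by
  rw [mul_assoc, ← conj_pow]
  group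

/-- normal form -/
theorem normal_form (g : G n) :
    ∃ (i j : ℕ) (l : ℤ), g = ((gt n) ^ i)⁻¹ * (ga n) ^ l * (gt n) ^ j := by
  have key : ∀ L : List (Fin 2 × Bool), ∃ (i j : ℕ) (l : ℤ),
      (PresentedGroup.mk ({rel n} : Set (FreeGroup (Fin 2)))) (FreeGroup.mk L) =
        ((gt n) ^ i)⁻¹ * (ga n) ^ l * (gt n) ^ j := by
    intro L
    induction L with
    | nil => exact ⟨0, 0, 0, by simp; rfl⟩
    | cons z L ih =>
      obtain ⟨i, j, l, h⟩ := ih
      obtain ⟨c, b⟩ := z
      have e : (FreeGroup.mk ((c, b) :: L)) = FreeGroup.mk [(c, b)] * FreeGroup.mk L := by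
        rw [FreeGroup.mul_mk]; rfl
      rw [e, map_mul, h]
      have hga : (PresentedGroup.mk ({rel n} : Set (FreeGroup (Fin 2)))) (FreeGroup.mk [(0, true)])
        = ga n := rfl
      have hgt : (PresentedGroup.mk ({rel n} : Set (FreeGroup (Fin 2)))) (FreeGroup.mk [(1, true)])
        = gt n := rfl
      have hga' : (PresentedGroup.mk ({rel n} : Set (FreeGroup (Fin 2)))) (FreeGroup.mk [(0, false)])
        = (ga n)⁻¹ := rfl
      have hgt' : (PresentedGroup.mk ({rel n} : Set (FreeGroup (Fin 2)))) (FreeGroup.mk [(1, false)])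
        = (gt n)⁻¹ := rfl
      fin_cases c
      · rcases b with _ | _
        · refine ⟨i, j, -n ^ i + l, ?_⟩
          have e1 := ga_eq n i (-1)
          rw [zpow_neg_one] at e1
          simp only [Fin.zero_eta, Fin.isValue]
          rw [hga', e1, zpow_add]
          have : n ^ i * -1 = -n ^ i := by ring
          rw [this]
          group
        · refine ⟨i, j, n ^ i + l, ?_⟩
          have e1 := ga_eq n i 1
          rw [zpow_one] at e1
          simp only [Fin.zero_eta, Fin.isValue]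
          rw [hga]
          have e2 : ∀ X : G n,
              ga n * X = ((gt n) ^ i)⁻¹ * (ga n) ^ (n ^ i * 1) * (gt n) ^ i * X := by
            intro X
            rw [← e1]
          rw [e2, zpow_add]
          have : n ^ i * 1 = n ^ i := by ring
          rw [this]
          group
      · rcases b with _ | _
        · refine ⟨i + 1, j, l, ?_⟩
          simp only [Fin.mk_one, Fin.isValue]
          rw [hgt', pow_succ]
          group
        · simp only [Fin.mk_one, Fin.isValue]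
          rw [hgt]
          rcases i with _ | i
          · refine ⟨0, j + 1, n * l, ?_⟩
            have := conj_pow n 1 l
            simp only [pow_one] at this
            simp only [pow_zero, inv_one, one_mul]
            rw [← mul_assoc, this, pow_succ']
            group
          · refine ⟨i, j, l, ?_⟩
            rw [pow_succ]
            group
  obtain ⟨w, rfl⟩ := QuotientGroup.mk_surjective g
  obtain ⟨i, j, l, h⟩ := key w.toWord
  rw [FreeGroup.mk_toWord] at h
  exact ⟨i, j, l, h⟩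

variable [Hyp n]

theorem rho_gt_pow (j : ℕ) : rho n ((gt n) ^ j) = ⟨0, j⟩ := by
  induction j with
  | zero => simp; rfl
  | succ j ih =>
    rw [pow_succ, map_mul, ih, rho_gt]
    ext <;> simp

theorem rho_gt_zpow (j : ℤ) : rho n ((gt n) ^ j) = ⟨0, j⟩ := by
  rcases Int.eq_nat_or_neg j with ⟨k, rfl | rfl⟩
  · rw [zpow_natCast, rho_gt_pow]
  · rw [zpow_neg, zpow_natCast, map_inv, rho_gt_pow]
    ext <;> simp

theorem rho_ga_zpow (l : ℤ) : rho n ((ga n) ^ l) = ⟨l, 0⟩ := by
  rw [map_zpow, rho_ga, aff_zpow]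

theorem rho_normal (i j : ℕ) (l : ℤ) : rho n (((gt n) ^ i)⁻¹ * (ga n) ^ l * (gt n) ^ j) =
    ⟨(l : ℚ) / (n : ℚ) ^ i, (j : ℤ) - i⟩ := by
  rw [map_mul, map_mul, map_inv, rho_gt_pow, rho_gt_pow, rho_ga_zpow]
  ext
  · simp [div_eq_inv_mul]
  · simp; ring

theorem rho_inj : Function.Injective (rho n) := by
  rw [injective_iff_map_eq_one]
  intro g hg
  obtain ⟨i, j, l, rfl⟩ := normal_form n g
  rw [rho_normal] at hg
  have h1 := congrArg Aff.x hg
  have h2 := congrArg Aff.m hg
  simp only [Aff.one_x, Aff.one_m] at h1 h2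
  have hl : l = 0 := by
    rw [div_eq_zero_iff] at h1
    rcases h1 with h1 | h1
    · exact_mod_cast h1
    · exact absurd h1 (pow_ne_zero _ (ne0 n))
  have hij : i = j := by omega
  subst hl hij
  simp

end Pool.Agent.H747BS
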