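import Mathlib
import Pool.Agent.H747BS.A0

/-!
Soundness of the certificate: number theory.
-/

set_option autoImplicit false

namespace Pool.Agent.H747BS

open Finset

/-- a number all of whose prime factors are `1` modulo `K` is `1` modulo `K` -/
theorem all_prime_mod (K : ℕ) : ∀ M : ℕ, M ≠ 0 →
    (∀ p : ℕ, p.Prime → p ∣ M → p ≡ 1 [MOD K]) → M ≡ 1 [MOD K] := by
  intro M
  induction M using Nat.strong_induction_on with
  | _ M ih =>
    intro hM h
    rcases eq_or_ne M 1 with rfl | h1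
    · rfl
    · obtain ⟨p, hp, b, rfl⟩ := Nat.exists_prime_and_dvd h1
      have hb0 : b ≠ 0 := by
        rintro rfl
        exact hM (mul_zero p)
      have hlt : b < p * b := by
        have := hp.two_le
        have := Nat.pos_of_ne_zero hb0
        nlinarith
      have h2 := ih b hlt hb0 (fun q hq hqb => h q hq (Dvd.dvd.mul_left hqb p))
      have h3 := h p hp (Dvd.intro _ rfl)
      simpa using h3.mul h2

/-- the prime factors of a value of the polynomial -/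
theorem prime_mod (l v : ℕ) (hl : l.Prime) (p : ℕ) (hp : p.Prime) (hpl : p ≠ l) (c : ℤ)
    (h : (p : ℤ) ∣ Fpoly l (l ^ v) c) : p ≡ 1 [MOD l ^ (v + 1)] := by
  have : Fact p.Prime := ⟨hp⟩
  have : Fact l.Prime := ⟨hl⟩
  have h1 : Fpoly l (l ^ v) ((c : ℤ) : ZMod p) = 0 := by
    have h0 : ((Fpoly l (l ^ v) c : ℤ) : ZMod p) = 0 := (ZMod.intCast_zmod_eq_zero_iff_dvd _ _).2 h
    rw [← h0]
    simp [Fpoly]
  have h3 : (c : ZMod p) ^ (l ^ v) ≠ 1 := by
    intro h3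
    rw [Fpoly, h3] at h1
    simp only [one_pow, sum_const, card_range, nsmul_eq_mul, mul_one] at h1
    exact hpl ((Nat.prime_dvd_prime_iff_eq hp hl).1 ((ZMod.natCast_eq_zero_iff l p).1 h1))
  have h2 : (c : ZMod p) ^ (l ^ (v + 1)) = 1 := by
    have h4 := geom_sum_mul ((c : ZMod p) ^ (l ^ v)) l
    rw [Fpoly] at h1
    rw [h1, zero_mul] at h4
    rw [pow_succ, pow_mul]
    exact (sub_eq_zero.1 h4.symm)
  have h4 : orderOf (c : ZMod p) = l ^ (v + 1) := orderOf_eq_prime_pow h3 h2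
  have hc0 : (c : ZMod p) ≠ 0 := by
    intro h0
    rw [h0, zero_pow (pow_ne_zero _ hl.ne_zero)] at h2
    exact zero_ne_one h2
  have h5 : orderOf (c : ZMod p) ∣ p - 1 := ZMod.orderOf_dvd_card_sub_one hc0
  rw [h4] at h5
  exact ((Nat.modEq_iff_dvd' hp.one_lt.le).2 h5).symm

theorem cert_sound_rat (N l v : ℕ) (hN : 2 ≤ N) (hl : l.Prime) (hlN : l ∣ N)
    (hv : ¬ l ^ (v + 1) ∣ N) (hv' : l ^ v ∣ N) (u y : ℤ) (z m : ℚ) (hz : z ∈ D N) (hm : m ∈ D N)
    (h : ((N : ℚ) ^ (((l ^ v : ℕ) : ℤ) * y) - 1) * m =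
      Fpoly l (l ^ v) z * ((N : ℚ) ^ (((l ^ v : ℕ) : ℤ) * u) - 1)) (d : ℕ) (hd : 1 < d)
    (hdl : Nat.Coprime d l) (hdy : (d : ℤ) ∣ y) (hdu : IsCoprime (d : ℤ) u) : False := by
  have hN0 : N ≠ 0 := by omega
  have hNq : (N : ℚ) ≠ 0 := by exact_mod_cast hN0
  obtain ⟨m1, hm1, e1⟩ := dvdD_of hN0
    (show (d : ℤ) ∣ ((l ^ v : ℕ) : ℤ) * y from Dvd.dvd.mul_left hdy _)
  have h2 : IsCoprime (d : ℤ) (((l ^ v : ℕ) : ℤ) * u) :=
    IsCoprime.mul_right (Nat.isCoprime_iff_coprime.2 (Nat.Coprime.pow_right v hdl)) hdu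
  obtain ⟨p, q, hpq⟩ := h2
  set U : ℤ := ((l ^ v : ℕ) : ℤ) * u with hU
  obtain ⟨c1, hc1, e2⟩ := dvdD_of hN0 (show (d : ℤ) ∣ p * d from Dvd.intro_left _ rfl)
  obtain ⟨c2, hc2, e3⟩ := dvdD_of hN0 (show U ∣ q * U from Dvd.intro_left _ rfl)
  set A : ℚ := (N : ℚ) ^ (d : ℤ) - 1 with hA
  set B : ℚ := (N : ℚ) ^ U - 1 with hB
  set F : ℚ := Fpoly l (l ^ v) z with hF
  have hBD : B ∈ D N := (D N).sub_mem (zpow_mem hN0 _) (D N).one_mem
  have hFD : F ∈ D N := by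
    rw [hF, Fpoly]
    exact (D N).sum_mem fun i _ => (D N).pow_mem ((D N).pow_mem hz _) _
  have e4 : (1 + A * c1) * (1 + B * c2) = N := by
    rw [e2, e3]
    have : (1 + ((N : ℚ) ^ (p * (d : ℤ)) - 1)) * (1 + ((N : ℚ) ^ (q * U) - 1)) =
      (N : ℚ) ^ (p * (d : ℤ)) * (N : ℚ) ^ (q * U) := by ring
    rw [this, ← zpow_add₀ hNq, hpq, zpow_one]
  -- the geometric sum
  set M : ℕ := ∑ i ∈ range d, N ^ i with hM
  have hMq : ((N : ℚ) - 1) * M = A := by
    rw [hA, hM, zpow_natCast]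
    push_cast
    exact mul_geom_sum _ _
  have hN1 : (N : ℚ) - 1 ≠ 0 := by
    have : (2 : ℚ) ≤ N := by exact_mod_cast hN
    intro h0
    linarith
  have e5 : F = M * (F * (c1 * (1 + B * c2)) + m1 * m * c2) := by
    apply mul_left_cancel₀ hN1
    rw [← mul_assoc, hMq]
    have e6 : A * (c1 * (1 + B * c2)) + B * c2 = N - 1 := by linarith
    have e7 : A * (m1 * m) = F * B := by rw [← h, ← e1]; ring
    calc ((N : ℚ) - 1) * F = F * (A * (c1 * (1 + B * c2)) + B * c2) := by rw [e6]; ring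
      _ = A * (F * (c1 * (1 + B * c2))) + (F * B) * c2 := by ring
      _ = _ := by rw [← e7]; ring
  have hw : F * (c1 * (1 + B * c2)) + m1 * m * c2 ∈ D N :=
    (D N).add_mem ((D N).mul_mem hFD ((D N).mul_mem hc1 ((D N).add_mem (D N).one_mem
      ((D N).mul_mem hBD hc2)))) ((D N).mul_mem ((D N).mul_mem hm1 hm) hc2)
  set w := F * (c1 * (1 + B * c2)) + m1 * m * c2 with hww
  -- M is prime to N
  obtain ⟨k, rfl⟩ : ∃ k, d = k + 2 := ⟨d - 2, by omega⟩
  have hM2 : M = 1 + N + N ^ 2 * ∑ i ∈ range k, N ^ i := by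
    rw [hM, sum_range_succ', sum_range_succ', mul_sum]
    simp only [zero_add, pow_one, pow_zero]
    rw [add_assoc, add_comm]
    congr 1
    · ring
    · refine sum_congr rfl fun i _ => by ring
  have hcop : IsCoprime (M : ℤ) (N : ℤ) := by
    refine ⟨1, -(1 + N * ∑ i ∈ range k, (N : ℤ) ^ i), ?_⟩
    rw [hM2]
    push_cast
    ring
  -- an integer congruent to z
  obtain ⟨a, i, hai⟩ := (mem_D hN0 z).1 hz
  obtain ⟨f, g, hfg⟩ := (hcop.pow_right (n := i) : IsCoprime (M : ℤ) ((N : ℤ) ^ i))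
  set c : ℤ := a * g with hc
  have hzc : z - c = M * (a * f / (N : ℚ) ^ i) := by
    rw [hai, hc]
    have hNi : (N : ℚ) ^ i ≠ 0 := pow_ne_zero _ hNq
    have h3 : (f : ℚ) * M + g * (N : ℚ) ^ i = 1 := by exact_mod_cast hfg
    field_simp
    push_cast
    linear_combination (-(a : ℚ)) * h3
  have hfD : (a * f / (N : ℚ) ^ i : ℚ) ∈ D N :=
    (mem_D hN0 _).2 ⟨a * f, i, by push_cast; ring⟩
  have hdiv : ((M : ℤ) : D N) ∣ (⟨z, hz⟩ : D N) - ((c : ℤ) : D N) := by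
    refine ⟨⟨_, hfD⟩, ?_⟩
    apply Subtype.ext
    push_cast
    exact hzc
  have hdiv2 : ((M : ℤ) : D N) ∣ Fpoly l (l ^ v) (⟨z, hz⟩ : D N) -
      Fpoly l (l ^ v) ((c : ℤ) : D N) := by
    rw [Fpoly, Fpoly, ← sum_sub_distrib]
    refine dvd_sum fun j _ => ?_
    rw [← pow_mul, ← pow_mul]
    exact hdiv.trans (sub_dvd_pow_sub_pow _ _ _)
  obtain ⟨w2, hw2⟩ := hdiv2
  have hw3 : F - ((Fpoly l (l ^ v) c : ℤ) : ℚ) = M * (w2 : ℚ) := by
    have := congrArg (fun q : D N => (q : ℚ)) hw2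
    simp only [Fpoly] at this
    push_cast at this
    rw [hF]
    simp only [Fpoly]
    push_cast
    exact this
  have hMdvd : (M : ℤ) ∣ Fpoly l (l ^ v) c := by
    refine coprime_dvd hN0 hcop ((D N).sub_mem hw w2.2) ?_
    rw [mul_sub]
    push_cast
    rw [← hw3, ← e5]
    ring
  -- all prime factors
  have hmod : M ≡ 1 [MOD l ^ (v + 1)] := by
    apply all_prime_mod
    · rw [hM2]; omega
    · intro p hp hpM
      refine prime_mod l v hl p hp ?_ c ((Int.natCast_dvd_natCast.2 hpM).trans hMdvd)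
      rintro rfl
      have h6 : Nat.Coprime M N := Nat.isCoprime_iff_coprime.1 hcop
      have h7 : p ∣ Nat.gcd M N := Nat.dvd_gcd hpM hlN
      rw [h6] at h7
      exact hp.one_lt.ne' (Nat.dvd_one.1 h7)
  rcases Nat.eq_zero_or_pos v with rfl | hv0
  · exact hv (by simpa using hlN)
  · apply hv
    have h8 : l ^ (v + 1) ∣ N ^ 2 := by
      refine (pow_dvd_pow l (show v + 1 ≤ v * 2 by omega)).trans ?_
      rw [pow_mul]
      exact pow_dvd_pow_of_dvd hv' 2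
    have h9 : 1 + N ≡ 1 [MOD l ^ (v + 1)] := by
      have h10 : M ≡ 1 + N [MOD l ^ (v + 1)] := by
        rw [hM2]
        have : N ^ 2 * ∑ i ∈ range k, N ^ i ≡ 0 [MOD l ^ (v + 1)] :=
          (Nat.modEq_zero_iff_dvd.2 (Dvd.dvd.mul_right h8 _))
        simpa using (Nat.ModEq.refl (1 + N)).add this
      exact h10.symm.trans hmod
    have h11 : N ≡ 0 [MOD l ^ (v + 1)] := by
      have : 1 + N ≡ 1 + 0 [MOD l ^ (v + 1)] := by simpa using h9
      exact Nat.ModEq.add_left_cancel' 1 this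
    exact Nat.modEq_zero_iff_dvd.1 h11

end Pool.Agent.H747BS
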