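import Mathlib
import Pool.Agent.H747BS.A0

/-!
Completeness of the certificate by the Chinese remainder theorem (helper182).
-/

set_option autoImplicit false

namespace Pool.Agent.H747BS

theorem sub_dvd_Fpoly (l K : ℕ) (a b : ℤ) : a - b ∣ Fpoly l K a - Fpoly l K b := by
  unfold Fpoly
  rw [← Finset.sum_sub_distrib]
  refine Finset.dvd_sum fun i _ => ?_
  rw [← pow_mul, ← pow_mul]
  exact sub_dvd_pow_sub_pow a b _

theorem cert_complete_int (N l v : ℕ) (hN : 2 ≤ N) (hl : l.Prime) (hlN : l ∣ N) (x : ℕ)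
    (hx : 1 ≤ x) (s : ℕ) : ∃ z m : ℤ, ((N : ℤ) ^ (l ^ v * (x * l ^ s)) - 1) * m =
      Fpoly l (l ^ v) z * ((N : ℤ) ^ (l ^ v * x) - 1) := by
  have hl0 : 0 < l := hl.pos
  have hB : (N : ℤ) ^ (l ^ v * x) - 1 ≠ 0 := by
    have h1 : (1 : ℤ) < (N : ℤ) ^ (l ^ v * x) :=
      one_lt_pow₀ (by exact_mod_cast hN) (by positivity)
    linarith [h1]
  induction s with
  | zero =>
    refine ⟨0, 1, ?_⟩
    have hF : Fpoly l (l ^ v) (0 : ℤ) = 1 := by
      unfold Fpoly
      rw [zero_pow (by positivity)]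
      obtain ⟨k, rfl⟩ : ∃ k, l = k + 1 := ⟨l - 1, by omega⟩
      rw [Finset.sum_range_succ']
      simp
    rw [hF, pow_zero, mul_one, mul_one, one_mul]
  | succ s ih =>
    obtain ⟨z, m, hzm⟩ := ih
    set B : ℤ := (N : ℤ) ^ (l ^ v * x) - 1 with hBd
    set T : ℤ := (N : ℤ) ^ (l ^ v * (x * l ^ s)) with hT
    have hPB : B ∣ T - 1 := by
      have h1 := sub_dvd_pow_sub_pow ((N : ℤ) ^ (l ^ v * x)) 1 (l ^ s)
      rw [one_pow, ← pow_mul] at h1
      rw [hT, ← mul_assoc]
      exact h1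
    obtain ⟨P, hP⟩ := hPB
    have hPz : P ∣ Fpoly l (l ^ v) z := by
      refine ⟨m, ?_⟩
      have h1 : B * (P * m) = B * Fpoly l (l ^ v) z := by
        rw [← mul_assoc, ← hP, hzm]
        ring
      exact (mul_left_cancel₀ hB h1).symm
    set Φ : ℤ := ∑ i ∈ Finset.range l, T ^ i with hΦ
    have hgeo : Φ * (T - 1) = T ^ l - 1 := geom_sum_mul T l
    have hΦl : ∃ R, Φ = (l : ℤ) + (T - 1) * R := by
      have h1 : T - 1 ∣ Φ - (l : ℤ) := by
        have h2 : Φ - (l : ℤ) = ∑ i ∈ Finset.range l, (T ^ i - 1) := by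
          rw [Finset.sum_sub_distrib]
          simp [hΦ]
        rw [h2]
        refine Finset.dvd_sum fun i _ => ?_
        have h3 := sub_dvd_pow_sub_pow T 1 i
        rwa [one_pow] at h3
      obtain ⟨R, hR⟩ := h1
      exact ⟨R, by linarith⟩
    have hlT : (l : ℤ) ∣ T := by
      have h1 : (l : ℤ) ∣ (N : ℤ) := by exact_mod_cast hlN
      refine h1.trans (dvd_pow_self _ ?_)
      positivity
    have hcop1 : IsCoprime (l : ℤ) (T - 1) := by
      obtain ⟨k, hk⟩ := hlT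
      refine ⟨k, -1, ?_⟩
      rw [hk]
      ring
    have hcop2 : IsCoprime Φ (T - 1) := by
      obtain ⟨R, hR⟩ := hΦl
      rw [hR]
      exact hcop1.add_mul_left_left R
    have hcop : IsCoprime Φ P :=
      hcop2.of_isCoprime_of_dvd_right ⟨B, by rw [hP]; ring⟩
    set z' : ℤ := (N : ℤ) ^ (x * l ^ s) with hz'
    have hFz' : Fpoly l (l ^ v) z' = Φ := by
      unfold Fpoly
      have : z' ^ (l ^ v) = T := by
        rw [hz', hT, ← pow_mul]
        congr 1
        ring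
      rw [this]
    obtain ⟨u, w, huw⟩ := hcop
    set c : ℤ := z * (u * Φ) + z' * (w * P) with hc
    have hcz : P ∣ c - z := ⟨w * (z' - z), by
      have : u * Φ = 1 - w * P := by linarith
      rw [hc, this]
      ring⟩
    have hcz' : Φ ∣ c - z' := ⟨u * (z - z'), by
      have : w * P = 1 - u * Φ := by linarith
      rw [hc, this]
      ring⟩
    have hPF : P ∣ Fpoly l (l ^ v) c := by
      have h1 := hcz.trans (sub_dvd_Fpoly l (l ^ v) c z)
      have h2 := dvd_add h1 hPz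
      rwa [sub_add_cancel] at h2
    have hΦF : Φ ∣ Fpoly l (l ^ v) c := by
      have h1 := hcz'.trans (sub_dvd_Fpoly l (l ^ v) c z')
      rw [hFz'] at h1
      have h2 := dvd_add h1 (dvd_refl Φ)
      rwa [sub_add_cancel] at h2
    have hcop' : IsCoprime Φ P := ⟨u, w, huw⟩
    obtain ⟨m', hm'⟩ := hcop'.mul_dvd hΦF hPF
    refine ⟨c, m', ?_⟩
    have hTl : (N : ℤ) ^ (l ^ v * (x * l ^ (s + 1))) = T ^ l := by
      rw [hT, ← pow_mul]
      congr 1
      ring
    rw [hTl, ← hgeo, hP, hm']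
    ring

end Pool.Agent.H747BS
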