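import Mathlib
import Pool.Agent.H747BS.A0

/-!
Integer predicates: squares from divisibility and the certificate, for a prime `l`.
-/

set_option autoImplicit false

namespace Pool.Agent.H747BS

theorem pow_sub_mod (l s : ℕ) : (l : ℤ) ^ 4 - 1 ∣ (l : ℤ) ^ s - (l : ℤ) ^ (s % 4) := by
  have e : (l : ℤ) ^ s = ((l : ℤ) ^ 4) ^ (s / 4) * (l : ℤ) ^ (s % 4) := by
    rw [← pow_mul, ← pow_add, Nat.div_add_mod]
  have h := sub_dvd_pow_sub_pow ((l : ℤ) ^ 4) 1 (s / 4)
  rw [one_pow] at h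
  have e2 : (l : ℤ) ^ s - (l : ℤ) ^ (s % 4) =
      (((l : ℤ) ^ 4) ^ (s / 4) - 1) * (l : ℤ) ^ (s % 4) := by rw [e]; ring
  rw [e2]
  exact Dvd.dvd.mul_right h _

theorem pl_iff (l : ℕ) (hl : l.Prime) (C : ℤ → ℤ → Prop) (h : Cert l C) (Q : ℤ) :
    PL l C Q ↔ ∃ j : ℕ, Q = (l : ℤ) ^ (4 * (j + 1)) := by
  have hl2 : (2 : ℤ) ≤ l := by exact_mod_cast hl.two_le
  have hl3 : (8 : ℤ) ≤ (l : ℤ) ^ 3 := by
    have : (2 : ℤ) ^ 3 ≤ (l : ℤ) ^ 3 := pow_le_pow_left₀ (by norm_num) hl2 3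
    norm_num at this
    exact this
  have hl4 : 2 * (l : ℤ) ^ 3 ≤ (l : ℤ) ^ 4 := by
    rw [pow_succ (l : ℤ) 3]
    nlinarith
  constructor
  · rintro ⟨h2, h15, hc⟩
    have hQ : Q ≠ 0 := by
      rintro rfl
      have := Int.le_of_dvd (by norm_num) ((dvd_neg.2 h15 : (l : ℤ) ^ 4 - 1 ∣ -(0 - 1)))
      linarith
    obtain ⟨s, hs⟩ : ∃ s, Q.natAbs = l ^ s := ⟨_, Nat.eq_prime_pow_of_unique_prime_dvd
      (Int.natAbs_ne_zero.2 hQ) (fun {d} hd hdQ => by
        by_contra hne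
        exact h.sound 1 Q hQ hc d hd.one_lt ((Nat.coprime_primes hd hl).2 hne)
          (Int.natCast_dvd.2 hdQ) isCoprime_one_right)⟩
    have hm := pow_sub_mod l s
    have h4 : s % 4 < 4 := Nat.mod_lt _ (by norm_num)
    have hi3 : (l : ℤ) ^ (s % 4) ≤ (l : ℤ) ^ 3 := pow_le_pow_right₀ (by linarith) (by omega)
    have hi1 : (1 : ℤ) ≤ (l : ℤ) ^ (s % 4) := one_le_pow₀ (by linarith)
    have hs' : s % 4 = 0 ∧ Q = (l : ℤ) ^ s := by
      rcases Int.natAbs_eq Q with h' | h'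
      · rw [hs] at h'
        push_cast at h'
        refine ⟨?_, h'⟩
        have h5 : (l : ℤ) ^ 4 - 1 ∣ (l : ℤ) ^ (s % 4) - 1 := by
          have e : (l : ℤ) ^ (s % 4) - 1 = (Q - 1) - ((l : ℤ) ^ s - (l : ℤ) ^ (s % 4)) := by
            rw [h']; ring
          rw [e]
          exact dvd_sub h15 hm
        have h6 : (l : ℤ) ^ (s % 4) - 1 = 0 := by
          apply Int.eq_zero_of_abs_lt_dvd h5
          rw [abs_lt]
          constructor <;> linarith
        by_contra hne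
        have : (l : ℤ) ^ 1 ≤ (l : ℤ) ^ (s % 4) := pow_le_pow_right₀ (by linarith) (by omega)
        rw [pow_one] at this
        linarith
      · exfalso
        rw [hs] at h'
        push_cast at h'
        have h5 : (l : ℤ) ^ 4 - 1 ∣ (l : ℤ) ^ (s % 4) + 1 := by
          have e : (l : ℤ) ^ (s % 4) + 1 = -(Q - 1) - ((l : ℤ) ^ s - (l : ℤ) ^ (s % 4)) := by
            rw [h']; ring
          rw [e]
          exact dvd_sub (dvd_neg.2 h15) hm
        have := Int.le_of_dvd (by linarith) h5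
        linarith
    obtain ⟨h5, h6⟩ := hs'
    have h7 : s ≠ 0 := by
      rintro rfl
      rw [h6, pow_zero] at h2
      have := Int.le_of_dvd (by norm_num) h2
      linarith
    refine ⟨s / 4 - 1, ?_⟩
    rw [h6]
    congr 1
    omega
  · rintro ⟨j, rfl⟩
    refine ⟨?_, ?_, ?_⟩
    · exact dvd_pow_self _ (by omega)
    · have := sub_dvd_pow_sub_pow ((l : ℤ) ^ 4) 1 (j + 1)
      rw [← pow_mul, one_pow] at this
      exact this
    · have := h.complete 1 le_rfl (4 * j + 3)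
      rw [one_mul] at this
      have e : 4 * (j + 1) = 4 * j + 3 + 1 := by ring
      rw [e]
      exact_mod_cast this

theorem exists_odd_mul (l : ℕ) (hl : 2 ≤ l) (s r : ℕ) (hs : 2 ≤ s)
    (h : l ^ s + 1 ∣ l ^ r + 1) : ∃ u, Odd u ∧ r = s * u := by
  refine ⟨r / s, ?_⟩
  have hl2 : (2 : ℤ) ≤ l := by exact_mod_cast hl
  have hlt : r % s < s := Nat.mod_lt _ (by omega)
  set t := r % s with ht
  set q := r / s with hq
  have hr : r = s * q + t := (Nat.div_add_mod r s).symm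
  have h1 : ((l : ℤ) ^ s + 1) ∣ (l : ℤ) ^ r + 1 := by exact_mod_cast h
  have pt : (0 : ℤ) < (l : ℤ) ^ t := by positivity
  have h2 : (l : ℤ) ^ t * 2 ≤ (l : ℤ) ^ s := by
    have h3 : (l : ℤ) ^ (t + 1) ≤ (l : ℤ) ^ s := pow_le_pow_right₀ (by linarith) (by omega)
    rw [pow_succ] at h3
    nlinarith
  have h3 : ((l : ℤ) ^ s + 1) ∣ ((l : ℤ) ^ s) ^ q - (-1) ^ q := by
    have := sub_dvd_pow_sub_pow ((l : ℤ) ^ s) (-1) q
    rwa [sub_neg_eq_add] at this
  have e1 : (l : ℤ) ^ r = ((l : ℤ) ^ s) ^ q * (l : ℤ) ^ t := by rw [hr, pow_add, pow_mul]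
  have h4 : ((l : ℤ) ^ s + 1) ∣ (-1) ^ q * (l : ℤ) ^ t + 1 := by
    have : (-1) ^ q * (l : ℤ) ^ t + 1 =
        ((l : ℤ) ^ r + 1) - (((l : ℤ) ^ s) ^ q - (-1) ^ q) * (l : ℤ) ^ t := by
      rw [e1]; ring
    rw [this]
    exact dvd_sub h1 (Dvd.dvd.mul_right h3 _)
  have ps : (4 : ℤ) ≤ (l : ℤ) ^ s := by
    have h5 : (l : ℤ) ^ 2 ≤ (l : ℤ) ^ s := pow_le_pow_right₀ (by linarith) hs
    nlinarith
  rcases Nat.even_or_odd q with hev | hod
  · exfalso
    rw [hev.neg_one_pow, one_mul] at h4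
    have := Int.le_of_dvd (by linarith) h4
    linarith
  · refine ⟨hod, ?_⟩
    rw [hod.neg_one_pow] at h4
    have h5 : (-1 : ℤ) * (l : ℤ) ^ t + 1 = 0 := by
      apply Int.eq_zero_of_abs_lt_dvd h4
      rw [abs_lt]
      constructor <;> linarith
    have h6 : (l : ℤ) ^ t = 1 := by linarith
    have h7 : t = 0 := by
      by_contra hne
      have : (l : ℤ) ^ 1 ≤ (l : ℤ) ^ t := pow_le_pow_right₀ (by linarith) (by omega)
      rw [h6, pow_one] at this
      linarith
    rw [h7] at hr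
    simpa using hr

/-- the key step, with an abstract certificate -/
theorem sq_sound (l : ℕ) (hl : l.Prime) (s r : ℕ) (hs0 : 4 ≤ s) (hs4 : 4 ∣ s)
    (hd : l ^ s + 1 ∣ l ^ s * l ^ r + l ^ s)
    (hc : ∀ d : ℕ, 1 < d → Nat.Coprime d l → d ∣ l ^ s * l ^ r + l ^ s →
      Nat.Coprime d (l ^ s + 1) → False) : r = s := by
  set Q := l ^ s with hQ
  have hQ4 : 4 ≤ Q := by
    have h1 : 2 ^ 2 ≤ 2 ^ s := Nat.pow_le_pow_right (by norm_num) (by omega)
    have h2 : 2 ^ s ≤ l ^ s := Nat.pow_le_pow_left hl.two_le s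
    have h3 : 2 ^ 2 ≤ l ^ s := h1.trans h2
    simpa using h3
  have hlQ : l ∣ Q := dvd_pow_self l (by omega)
  have hcop : Nat.Coprime (Q + 1) Q := by simp
  have e1 : Q * l ^ r + Q = Q * (l ^ r + 1) := by ring
  rw [e1] at hd hc
  have hd' : Q + 1 ∣ l ^ r + 1 := hcop.dvd_of_dvd_mul_left hd
  obtain ⟨u, hu, hru⟩ := exists_odd_mul l hl.two_le s r (by omega) hd'
  rcases Nat.lt_or_ge u 2 with h2 | h2
  · obtain ⟨k, hk⟩ := hu
    have : u = 1 := by omega
    rw [hru, this, mul_one]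
  · exfalso
    have hu3 : 3 ≤ u := by
      obtain ⟨k, hk⟩ := hu
      omega
    have e2 : l ^ r = Q ^ u := by rw [hru, pow_mul]
    rw [e2] at hc
    have hdvd : Q ^ u + 1 ∣ (Q + 1) * u := by
      rw [← Nat.factorization_prime_le_iff_dvd (by positivity)
        (Nat.mul_ne_zero (by omega) (by omega))]
      intro p hp
      have : Fact p.Prime := ⟨hp⟩
      by_cases hpd : p ∣ Q ^ u + 1
      · have hpl : p ≠ l := by
          rintro rfl
          have h3 : p ∣ Q ^ u := Dvd.dvd.pow hlQ (by omega)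
          have h4 : p ∣ 1 := (Nat.dvd_add_right h3).1 hpd
          exact hp.one_lt.ne' (Nat.dvd_one.1 h4)
        have hpQ : p ∣ Q + 1 := by
          by_contra hn
          exact hc p hp.one_lt ((Nat.coprime_primes hp hl).2 hpl) (Dvd.dvd.mul_left hpd Q)
            ((Nat.Prime.coprime_iff_not_dvd hp).2 hn)
        rcases hp.eq_two_or_odd' with h | hpo
        · -- the prime two
          subst h
          have hlo : Odd l := hl.odd_of_ne_two hpl.symm
          have hQ1 : Q % 4 = 1 := by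
            obtain ⟨k, hk⟩ := hs4
            have hl4 : l ^ 4 % 4 = 1 := by
              have : l % 4 = 1 ∨ l % 4 = 3 := by
                rcases Nat.odd_iff.1 hlo with h5
                omega
              rcases this with h6 | h6 <;> rw [Nat.pow_mod, h6]
            rw [hQ, hk, pow_mul, Nat.pow_mod, hl4, one_pow]
            rfl
          have hQu : (Q ^ u + 1) % 4 = 2 := by
            have h7 : Q ^ u % 4 = 1 := by
              rw [Nat.pow_mod, hQ1, one_pow]
              rfl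
            omega
          have hle1 : (Q ^ u + 1).factorization 2 ≤ 1 := by
            by_contra hcon
            push Not at hcon
            have h8 : 2 ^ 2 ∣ Q ^ u + 1 :=
              (Nat.Prime.pow_dvd_iff_le_factorization hp (by omega)).2 hcon
            omega
          have hge1 : 1 ≤ ((Q + 1) * u).factorization 2 := by
            apply (Nat.Prime.pow_dvd_iff_le_factorization hp
              (Nat.mul_ne_zero (by omega) (by omega))).1
            rw [pow_one]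
            exact Dvd.dvd.mul_right hpQ u
          exact hle1.trans hge1
        · have hpnQ : ¬ p ∣ Q := by
            intro h
            have h1 : p ∣ Nat.gcd (Q + 1) Q := Nat.dvd_gcd hpQ h
            rw [hcop] at h1
            exact hp.one_lt.ne' (Nat.dvd_one.1 h1)
          have lte := padicValNat.pow_add_pow hpo hpQ hpnQ hu
          rw [one_pow] at lte
          rw [Nat.factorization_def _ hp, Nat.factorization_def _ hp, lte,
            padicValNat.mul (by omega) (by omega)]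
      · rw [Nat.factorization_eq_zero_of_not_dvd hpd]
        exact Nat.zero_le _
    have hle := Nat.le_of_dvd (Nat.mul_pos (by omega) (by omega)) hdvd
    obtain ⟨w, rfl⟩ : ∃ w, u = w + 1 := ⟨u - 1, by omega⟩
    have h4 : 2 * (w + 1) ≤ 4 ^ w := by
      have : ∀ n, 2 ≤ n → 2 * (n + 1) ≤ 4 ^ n := by
        intro n hn
        induction n, hn using Nat.le_induction with
        | base => norm_num
        | succ n hn ih => rw [pow_succ]; omega
      exact this w (by omega)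
    have h5 : 4 ^ w ≤ Q ^ w := Nat.pow_le_pow_left hQ4 w
    rw [pow_succ] at hle
    nlinarith

theorem sqQ_iff (l : ℕ) (hl : l.Prime) (C : ℤ → ℤ → Prop) (h : Cert l C) (Q R : ℤ) :
    SqQ l C Q R ↔ ∃ j : ℕ, Q = (l : ℤ) ^ (4 * (j + 1)) ∧ R = Q * Q := by
  have hl2 : (2 : ℤ) ≤ l := by exact_mod_cast hl.two_le
  have hlp : (0 : ℤ) < l := by linarith
  constructor
  · rintro ⟨h1, h2, h3, h4, h5⟩
    obtain ⟨j, hj⟩ := (pl_iff l hl C h Q).1 h1
    obtain ⟨k, hk⟩ := (pl_iff l hl C h R).1 h2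
    refine ⟨j, hj, ?_⟩
    have hle : 4 * (j + 1) ≤ 4 * (k + 1) := by
      by_contra hc
      push Not at hc
      have : (l : ℤ) ^ (4 * (k + 1)) < (l : ℤ) ^ (4 * (j + 1)) :=
        pow_lt_pow_right₀ (by linarith) hc
      have h6 := Int.le_of_dvd (by rw [hk]; positivity) h3
      rw [hj, hk] at h6
      linarith
    set s := 4 * (j + 1) with hs
    obtain ⟨r, hr⟩ : ∃ r, 4 * (k + 1) = s + r := ⟨4 * (k + 1) - s, by omega⟩
    rw [hr, pow_add] at hk
    have e0 : ((l ^ s + 1 : ℕ) : ℤ) = Q + 1 := by rw [hj]; push_cast; ring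
    have e1 : ((l ^ s * l ^ r + l ^ s : ℕ) : ℤ) = R + Q := by rw [hj, hk]; push_cast; ring
    have hpos : R + Q ≠ 0 := by
      rw [hj, hk]; positivity
    have := sq_sound l hl s r (by omega) ⟨j + 1, hs⟩ (by
      rw [← e0, ← e1] at h4
      exact_mod_cast h4) (by
      intro d hd ho hdv hcop
      refine h.sound (Q + 1) (R + Q) hpos h5 d hd ho ?_ ?_
      · rw [← e1]
        exact_mod_cast hdv
      · rw [← e0]
        exact Nat.isCoprime_iff_coprime.2 hcop)
    rw [hk, this, hj]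
  · rintro ⟨j, hj, hR⟩
    refine ⟨(pl_iff l hl C h Q).2 ⟨j, hj⟩, (pl_iff l hl C h R).2 ⟨2 * j + 1, ?_⟩, ?_, ?_, ?_⟩
    · rw [hR, hj, ← pow_add]
      congr 1
      ring
    · rw [hR]; exact Dvd.intro _ rfl
    · rw [hR]
      exact ⟨Q, by ring⟩
    · have := h.complete (l ^ (4 * (j + 1)) + 1) (Nat.le_add_left 1 _) (4 * j + 3)
      have e1 : (((l ^ (4 * (j + 1)) + 1) * l ^ (4 * j + 3 + 1) : ℕ) : ℤ) = R + Q := by
        rw [hR, hj]
        have : 4 * (j + 1) = 4 * j + 3 + 1 := by ring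
        rw [this]
        push_cast
        ring
      have e2 : ((l ^ (4 * (j + 1)) + 1 : ℕ) : ℤ) = Q + 1 := by rw [hj]; push_cast; ring
      rw [e1, e2] at this
      exact this

/-- multiplication by `Q` where `Q` is large -/
def MulQ (Q x Y : ℤ) : Prop :=
  Q ∣ Y ∧ Q - 1 ∣ Y - x ∧ Q + 1 ∣ Y + x

theorem mulQ_sound (Q x Y : ℤ) (hQ : 4 ≤ Q) (h : MulQ Q x Y) (hY : |Y| ≤ Q * (Q - 1))
    (hx : |x| ≤ Q - 1) : Y = Q * x := by
  obtain ⟨h1, h2, h3⟩ := h
  have d1 : Q ∣ Y - Q * x := dvd_sub h1 (Dvd.intro _ rfl)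
  have d2 : Q + 1 ∣ Y - Q * x := by
    have : Y - Q * x = (Y + x) - (Q + 1) * x := by ring
    rw [this]; exact dvd_sub h3 (Dvd.intro _ rfl)
  have d3 : Q - 1 ∣ Y - Q * x := by
    have : Y - Q * x = (Y - x) - (Q - 1) * x := by ring
    rw [this]; exact dvd_sub h2 (Dvd.intro _ rfl)
  have c1 : IsCoprime Q (Q + 1) := ⟨-1, 1, by ring⟩
  obtain ⟨k, hk⟩ := c1.mul_dvd d1 d2
  have c2 : IsCoprime (Q - 1) Q := ⟨-1, 1, by ring⟩
  have d4 : Q - 1 ∣ (Q + 1) * k := by
    have : Q - 1 ∣ Q * ((Q + 1) * k) := by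
      rw [hk] at d3
      convert d3 using 1
      ring
    exact c2.dvd_of_dvd_mul_left this
  have d5 : Q - 1 ∣ 2 * k := by
    have : 2 * k = (Q + 1) * k - (Q - 1) * k := by ring
    rw [this]; exact dvd_sub d4 (Dvd.intro _ rfl)
  rw [abs_le] at hY hx
  have b0 : Q * x ≤ Q * (Q - 1) := mul_le_mul_of_nonneg_left hx.2 (by linarith)
  have b1 : Q * (-(Q - 1)) ≤ Q * x := mul_le_mul_of_nonneg_left hx.1 (by linarith)
  have b2 : k < 2 := by
    by_contra hc
    have : Q * (Q + 1) * 2 ≤ Q * (Q + 1) * k := by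
      apply mul_le_mul_of_nonneg_left (by linarith) (by positivity)
    nlinarith
  have b3 : -2 < k := by
    by_contra hc
    have : Q * (Q + 1) * k ≤ Q * (Q + 1) * (-2) := by
      apply mul_le_mul_of_nonneg_left (by linarith) (by positivity)
    nlinarith
  have hk0 : 2 * k = 0 := by
    apply Int.eq_zero_of_abs_lt_dvd d5
    rw [abs_lt]
    constructor <;> linarith
  have : k = 0 := by linarith
  rw [this] at hk
  linarith

theorem mulQ_complete (Q x : ℤ) : MulQ Q x (Q * x) :=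
  ⟨Dvd.intro _ rfl, ⟨x, by ring⟩, ⟨x, by ring⟩⟩

theorem osq_iff (l : ℕ) (hl : l.Prime) (C : ℤ → ℤ → Prop) (h : Cert l C) (x y : ℤ)
    (hx : IsCoprime x (l : ℤ)) : OSq l C x y ↔ y = x * x := by
  have hl2 : (2 : ℤ) ≤ l := by exact_mod_cast hl.two_le
  constructor
  · rintro ⟨t, h1, h2, h3, h4, h5, h6, h7⟩
    obtain ⟨j, hj, e1⟩ := (sqQ_iff l hl C h _ _).1 h1
    obtain ⟨_, _, e2⟩ := (sqQ_iff l hl C h _ _).1 h2
    set Q := t 0 with hQ
    have hQ16 : 16 ≤ Q := by
      rw [hj]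
      have h8 : (l : ℤ) ^ 4 ≤ (l : ℤ) ^ (4 * (j + 1)) :=
        pow_le_pow_right₀ (by linarith) (by omega)
      have h9 : (2 : ℤ) ^ 4 ≤ (l : ℤ) ^ 4 := pow_le_pow_left₀ (by norm_num) hl2 4
      norm_num at h9
      linarith
    rw [e2, e1] at h5 h7
    rw [e1] at h4 h6
    have hxQ : |x| ≤ Q - 1 := by
      have := Int.le_of_dvd (by linarith) ((abs_dvd _ _).2 h3)
      exact this
    have hQQ : 256 ≤ Q * Q := by nlinarith
    have hY : |t 3| ≤ (Q * Q) * (Q * Q - 1) := by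
      have e : (Q * Q) * (Q * Q - 1) = Q * Q * (Q * Q) - Q * Q := by ring
      rw [e]
      exact Int.le_of_dvd (by nlinarith) ((abs_dvd _ _).2 h5)
    have hxQ2 : |x| ≤ Q * Q - 1 := by nlinarith
    have h8 := mulQ_sound (Q * Q) x (t 3) (by linarith) h4 hY hxQ2
    rw [h8] at h7
    have d1 : x + 2 * (Q * Q) ∣ y - x * x := by
      have : y - x * x = (y + 4 * (Q * Q * x) + 4 * (Q * Q * (Q * Q))) -
        (x + 2 * (Q * Q)) * (x + 2 * (Q * Q)) := by ring
      rw [this]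
      exact dvd_sub h7 (Dvd.intro _ rfl)
    have hy : |y| ≤ (Q - 1) * (Q - 1) := by
      have e : (Q - 1) * (Q - 1) = Q * Q - 2 * Q + 1 := by ring
      have hpos : 0 < Q * Q - 2 * Q + 1 := by nlinarith
      rw [e]
      exact Int.le_of_dvd hpos ((abs_dvd _ _).2 h6)
    have hxx : x * x ≤ (Q - 1) * (Q - 1) := by
      rw [← abs_mul_abs_self x]
      exact mul_le_mul hxQ hxQ (abs_nonneg _) (by linarith)
    have hxx0 : 0 ≤ x * x := mul_self_nonneg x
    rw [abs_le] at hy hxQ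
    have : y - x * x = 0 := by
      apply Int.eq_zero_of_abs_lt_dvd d1
      rw [abs_lt]
      constructor <;> nlinarith
    linarith
  · rintro rfl
    -- choose Q
    obtain ⟨j, hj⟩ : ∃ j : ℕ, x ∣ (l : ℤ) ^ (4 * (j + 1)) - 1 := by
      refine ⟨Nat.totient x.natAbs - 1, ?_⟩
      have hx0 : x ≠ 0 := by
        rintro rfl
        have hu : IsUnit (l : ℤ) := isCoprime_zero_left.1 hx
        rcases Int.isUnit_iff.1 hu with h | h <;> linarith
      have hp : 0 < Nat.totient x.natAbs := Nat.totient_pos.2 (Int.natAbs_pos.2 hx0)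
      have e : Nat.totient x.natAbs - 1 + 1 = Nat.totient x.natAbs := by omega
      rw [e]
      have hc : Nat.Coprime (l ^ 4) x.natAbs := by
        have h2 : Nat.Coprime l x.natAbs := by
          have h3 := Int.isCoprime_iff_gcd_eq_one.1 hx
          rw [Int.gcd, Int.natAbs_natCast] at h3
          exact (Nat.Coprime.symm h3)
        exact Nat.Coprime.pow_left 4 h2
      have h1 := Nat.ModEq.pow_totient hc
      have h2 : ((x.natAbs : ℕ) : ℤ) ∣ (((l ^ 4) ^ Nat.totient x.natAbs : ℕ) : ℤ) -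
          ((1 : ℕ) : ℤ) := by
        exact (Nat.modEq_iff_dvd.1 h1.symm)
      rw [Int.natAbs_dvd] at h2
      push_cast at h2
      rw [pow_mul]
      exact h2
    set Q : ℤ := (l : ℤ) ^ (4 * (j + 1)) with hQ
    refine ⟨![Q, Q * Q, Q * Q * (Q * Q), Q * Q * x], ?_, ?_, ?_, ?_, ?_, ?_, ?_⟩
    · change SqQ l C Q (Q * Q)
      exact (sqQ_iff l hl C h _ _).2 ⟨j, hQ, rfl⟩
    · change SqQ l C (Q * Q) (Q * Q * (Q * Q))
      refine (sqQ_iff l hl C h _ _).2 ⟨2 * j + 1, ?_, rfl⟩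
      rw [hQ, ← pow_add]
      congr 1
      ring
    · exact hj
    · exact mulQ_complete (Q * Q) x
    · change Q * Q * x ∣ Q * Q * (Q * Q) - Q * Q
      have : Q * Q * (Q * Q) - Q * Q = Q * Q * (Q * Q - 1) := by ring
      rw [this]
      apply mul_dvd_mul_left
      have : Q * Q - 1 = (Q - 1) * (Q + 1) := by ring
      rw [this]
      exact Dvd.dvd.mul_right hj _
    · change x * x ∣ Q * Q - 2 * Q + 1
      have : Q * Q - 2 * Q + 1 = (Q - 1) * (Q - 1) := by ring
      rw [this]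
      exact mul_dvd_mul hj hj
    · change x + 2 * (Q * Q) ∣ x * x + 4 * (Q * Q * x) + 4 * (Q * Q * (Q * Q))
      exact ⟨x + 2 * (Q * Q), by ring⟩

theorem sq_iff (l : ℕ) (hl : l.Prime) (C : ℤ → ℤ → Prop) (h : Cert l C) (x y : ℤ) :
    OSq l C ((l : ℤ) * x + 1) ((l : ℤ) ^ 2 * y + 2 * l * x + 1) ↔ y = x * x := by
  have hl2 : (2 : ℤ) ≤ l := by exact_mod_cast hl.two_le
  rw [osq_iff l hl C h _ _ ⟨1, -x, by ring⟩]
  constructor
  · intro h
    have h1 : (l : ℤ) ^ 2 * y = (l : ℤ) ^ 2 * (x * x) := by linear_combination h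
    have h2 : (l : ℤ) ^ 2 ≠ 0 := by positivity
    exact mul_left_cancel₀ h2 h1
  · rintro rfl
    ring

end Pool.Agent.H747BS
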