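import Mathlib
import Pool.Agent.H747BS.A0

/-!
Divisibility of exponents in `ℤ[1/N]`, congruences, and the gadget for binomial coefficients.
-/

set_option autoImplicit false

namespace Pool.Agent.H747BS

theorem pow_sub_dvd_iff (N a b : ℕ) (hN : 2 ≤ N) : (N ^ a - 1 ∣ N ^ b - 1) ↔ a ∣ b := by
  rw [← Nat.gcd_eq_left_iff_dvd, Nat.pow_sub_one_gcd_pow_sub_one, ← Nat.gcd_eq_left_iff_dvd]
  have h1 : ∀ k : ℕ, 1 ≤ N ^ k := fun k => Nat.one_le_pow _ _ (by omega)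
  constructor
  · intro h
    have h2 : N ^ Nat.gcd a b = N ^ a := by
      have := h1 (Nat.gcd a b)
      have := h1 a
      omega
    exact Nat.pow_right_injective hN h2
  · intro h
    rw [h]

theorem dvdD (N : ℕ) (hN : 2 ≤ N) (y e : ℤ) :
    (∃ A ∈ D N, ((N : ℚ) ^ y - 1) * A = (N : ℚ) ^ e - 1) ↔ y ∣ e := by
  have hN0 : N ≠ 0 := by omega
  have hN1 : (1 : ℚ) < (N : ℚ) := by
    have : ((2 : ℕ) : ℚ) ≤ (N : ℚ) := by exact_mod_cast hN
    push_cast at this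
    linarith
  constructor
  · rintro ⟨A, hA, h⟩
    rcases eq_or_ne y 0 with rfl | hy
    · have : (N : ℚ) ^ e = (N : ℚ) ^ (0 : ℤ) := by
        rw [zpow_zero, sub_self, zero_mul] at h
        rw [zpow_zero]
        exact (sub_eq_zero.1 h.symm)
      have : e = 0 := zpow_right_injective₀ (by linarith) hN1.ne' this
      rw [this]
    · obtain ⟨A1, hA1, h1⟩ := dvdD_of hN0 (show (y.natAbs : ℤ) ∣ y from Int.natAbs_dvd.2 dvd_rfl)
      obtain ⟨A2, hA2, h2⟩ := dvdD_of hN0 (show e ∣ (e.natAbs : ℤ) from Int.dvd_natAbs.2 dvd_rfl)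
      rw [zpow_natCast] at h1 h2
      have h3 : (((N : ℤ) ^ e.natAbs - 1 : ℤ) : ℚ) =
          ((N : ℤ) ^ y.natAbs - 1 : ℤ) * (A1 * A * A2) := by
        push_cast
        rw [← h2, ← h, ← h1]
        ring
      have hn : 1 ≤ y.natAbs := Int.natAbs_pos.2 hy
      have h4 := coprime_dvd hN0 (coprime_pow_sub_one _ hn)
        ((D N).mul_mem ((D N).mul_mem hA1 hA) hA2) h3
      have h5 : N ^ y.natAbs - 1 ∣ N ^ e.natAbs - 1 := by
        have c : ∀ k : ℕ, ((N ^ k - 1 : ℕ) : ℤ) = (N : ℤ) ^ k - 1 := by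
          intro k
          rw [Nat.cast_sub (Nat.one_le_pow _ _ (by omega))]
          push_cast
          ring
        rw [← Int.natCast_dvd_natCast, c, c]
        exact h4
      exact Int.natAbs_dvd_natAbs.1 ((pow_sub_dvd_iff N _ _ hN).1 h5)
  · exact dvdD_of hN0

/-- congruence modulo `N ^ y - 1` in `ℤ[1/N]` -/
def Cong (N : ℕ) (y : ℤ) (a b : ℚ) : Prop := ∃ k ∈ D N, a - b = ((N : ℚ) ^ y - 1) * k

theorem Cong.refl {N : ℕ} {y : ℤ} (a : ℚ) : Cong N y a a := ⟨0, (D N).zero_mem, by ring⟩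

theorem Cong.symm {N : ℕ} {y : ℤ} {a b : ℚ} (h : Cong N y a b) : Cong N y b a := by
  obtain ⟨k, hk, e⟩ := h
  exact ⟨-k, (D N).neg_mem hk, by linear_combination -e⟩

theorem Cong.trans {N : ℕ} {y : ℤ} {a b c : ℚ} (h : Cong N y a b) (h' : Cong N y b c) :
    Cong N y a c := by
  obtain ⟨k, hk, e⟩ := h
  obtain ⟨k', hk', e'⟩ := h'
  exact ⟨k + k', (D N).add_mem hk hk', by linear_combination e + e'⟩

theorem Cong.add {N : ℕ} {y : ℤ} {a b c d : ℚ} (h : Cong N y a b) (h' : Cong N y c d) :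
    Cong N y (a + c) (b + d) := by
  obtain ⟨k, hk, e⟩ := h
  obtain ⟨k', hk', e'⟩ := h'
  exact ⟨k + k', (D N).add_mem hk hk', by linear_combination e + e'⟩

theorem Cong.sub {N : ℕ} {y : ℤ} {a b c d : ℚ} (h : Cong N y a b) (h' : Cong N y c d) :
    Cong N y (a - c) (b - d) := by
  obtain ⟨k, hk, e⟩ := h
  obtain ⟨k', hk', e'⟩ := h'
  exact ⟨k - k', (D N).sub_mem hk hk', by linear_combination e - e'⟩

theorem Cong.mul {N : ℕ} {y : ℤ} {a b c d : ℚ} (h : Cong N y a b) (h' : Cong N y c d)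
    (ha : a ∈ D N) (hd : d ∈ D N) : Cong N y (a * c) (b * d) := by
  obtain ⟨k, hk, e⟩ := h
  obtain ⟨k', hk', e'⟩ := h'
  exact ⟨a * k' + k * d, (D N).add_mem ((D N).mul_mem ha hk') ((D N).mul_mem hk hd), by
    linear_combination d * e + a * e'⟩

/-- soundness of the gadget for binomial coefficients -/
theorem gad_sound {N : ℕ} (hN : 2 ≤ N) {y e : ℤ} (hy : y ≠ 0) {A B W V : ℚ} (hA : A ∈ D N)
    (hV : V ∈ D N)
    (h1 : ((N : ℚ) ^ y - 1) * A = (N : ℚ) ^ e - 1)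
    (h2 : (((N : ℚ) ^ y) ^ 2 - 1) * B = ((N : ℚ) ^ e) ^ 2 - 1)
    (h3 : B - A = ((N : ℚ) ^ y - 1) * W + ((N : ℚ) ^ y - 1) ^ 2 * V) :
    ∃ m c : ℤ, e = y * m ∧ 2 * c + m = m * m ∧ Cong N y A m ∧ Cong N y W c := by
  have hN0 : N ≠ 0 := by omega
  have hN' : (N : ℚ) ≠ 0 := by exact_mod_cast hN0
  have hN1 : (1 : ℚ) < (N : ℚ) := by
    have : ((2 : ℕ) : ℚ) ≤ (N : ℚ) := by exact_mod_cast hN
    push_cast at this
    linarith
  obtain ⟨m, hm⟩ := (dvdD N hN y e).1 ⟨A, hA, h1⟩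
  set x : ℚ := (N : ℚ) ^ y with hx
  have hxp : 0 < x := zpow_pos (by linarith) _
  have hx0 : x ≠ 0 := hxp.ne'
  have hxD : x ∈ D N := zpow_mem hN0 y
  have hxi : x⁻¹ ∈ D N := by rw [hx, ← zpow_neg]; exact zpow_mem hN0 _
  have hE : (N : ℚ) ^ e = x ^ m := by rw [hm, zpow_mul]
  have hx1 : x ≠ 1 := by
    intro h
    apply hy
    have : (N : ℚ) ^ y = (N : ℚ) ^ (0 : ℤ) := by rw [← hx, h, zpow_zero]
    exact zpow_right_injective₀ (by linarith) hN1.ne' this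
  have hY0 : x - 1 ≠ 0 := sub_ne_zero.2 hx1
  have hY2 : x ^ 2 - 1 ≠ 0 := by
    have : x ^ 2 - 1 = (x - 1) * (x + 1) := by ring
    rw [this]
    exact mul_ne_zero hY0 (by positivity)
  obtain ⟨C, α, hα, hC, hA0⟩ := expand x hx0 hxD hxi m
  obtain ⟨C', β, hβ, hC', hB0⟩ := expand (x ^ 2) (by positivity) ((D N).pow_mem hxD 2)
    (by rw [← inv_pow]; exact (D N).pow_mem hxi 2) m
  have hCC : C' = C := by linarith
  subst hCC
  have hA' : A = m + C' * (x - 1) + (x - 1) ^ 2 * α := by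
    apply mul_left_cancel₀ hY0
    rw [h1, hE, hA0]
    ring
  have hB' : B = m + C' * (x ^ 2 - 1) + (x ^ 2 - 1) ^ 2 * β := by
    apply mul_left_cancel₀ hY2
    have e1 : (x ^ m) ^ 2 = (x ^ 2) ^ m := by rw [sq, sq, mul_zpow]
    rw [h2, hE, e1, hB0]
    ring
  have hYD : x - 1 ∈ D N := (D N).sub_mem hxD (D N).one_mem
  have hX1D : x + 1 ∈ D N := (D N).add_mem hxD (D N).one_mem
  refine ⟨m, C', hm, hC, ⟨C' + (x - 1) * α, (D N).add_mem (int_mem N _)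
    ((D N).mul_mem hYD hα), by rw [hA']; ring⟩, ⟨C' + (x + 1) ^ 2 * β - α - V,
    (D N).sub_mem ((D N).sub_mem ((D N).add_mem (int_mem N _)
      ((D N).mul_mem ((D N).pow_mem hX1D 2) hβ)) hα) hV, ?_⟩⟩
  apply mul_left_cancel₀ hY0
  have e4 : (x - 1) * W = B - A - (x - 1) ^ 2 * V := by linarith
  have e5 : (x - 1) * (W - C') = (x - 1) * W - (x - 1) * C' := by ring
  rw [e5, e4, hA', hB']
  ring

/-- completeness of the gadget -/
theorem gad_complete {N : ℕ} (hN : 2 ≤ N) (y m c : ℤ) (hc : 2 * c + m = m * m) :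
    ∃ A B V k : ℚ, A ∈ D N ∧ B ∈ D N ∧ V ∈ D N ∧ k ∈ D N ∧
    ((N : ℚ) ^ y - 1) * A = (N : ℚ) ^ (y * m) - 1 ∧
    (((N : ℚ) ^ y) ^ 2 - 1) * B = ((N : ℚ) ^ (y * m)) ^ 2 - 1 ∧
    B - A = ((N : ℚ) ^ y - 1) * c + ((N : ℚ) ^ y - 1) ^ 2 * V ∧
    (m : ℚ) - A = ((N : ℚ) ^ y - 1) * k := by
  have hN0 : N ≠ 0 := by omega
  have hN' : (N : ℚ) ≠ 0 := by exact_mod_cast hN0
  set x : ℚ := (N : ℚ) ^ y with hx
  have hx0 : x ≠ 0 := zpow_ne_zero _ hN'
  have hxD : x ∈ D N := zpow_mem hN0 y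
  have hxi : x⁻¹ ∈ D N := by rw [hx, ← zpow_neg]; exact zpow_mem hN0 _
  obtain ⟨C, α, hα, hC, hA0⟩ := expand x hx0 hxD hxi m
  obtain ⟨C', β, hβ, hC', hB0⟩ := expand (x ^ 2) (pow_ne_zero _ hx0) ((D N).pow_mem hxD 2)
    (by rw [← inv_pow]; exact (D N).pow_mem hxi 2) m
  have hCC : C' = c := by linarith
  have hCC' : C = c := by linarith
  subst hCC hCC'
  have hYD : x - 1 ∈ D N := (D N).sub_mem hxD (D N).one_mem
  have hX1D : x + 1 ∈ D N := (D N).add_mem hxD (D N).one_mem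
  have hX2D : x ^ 2 - 1 ∈ D N := (D N).sub_mem ((D N).pow_mem hxD 2) (D N).one_mem
  have hE : (N : ℚ) ^ (y * m) = x ^ m := by rw [zpow_mul]
  have e1 : (x ^ m) ^ 2 = (x ^ 2) ^ m := by rw [sq, sq, mul_zpow]
  refine ⟨m + C * (x - 1) + (x - 1) ^ 2 * α, m + C * (x ^ 2 - 1) + (x ^ 2 - 1) ^ 2 * β,
    C + (x + 1) ^ 2 * β - α, -(C + (x - 1) * α), ?_, ?_, ?_, ?_, ?_, ?_, ?_, ?_⟩
  · exact (D N).add_mem ((D N).add_mem (int_mem N m) ((D N).mul_mem (int_mem N _) hYD))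
      ((D N).mul_mem ((D N).pow_mem hYD 2) hα)
  · exact (D N).add_mem ((D N).add_mem (int_mem N m) ((D N).mul_mem (int_mem N _) hX2D))
      ((D N).mul_mem ((D N).pow_mem hX2D 2) hβ)
  · exact (D N).sub_mem ((D N).add_mem (int_mem N _)
      ((D N).mul_mem ((D N).pow_mem hX1D 2) hβ)) hα
  · exact (D N).neg_mem ((D N).add_mem (int_mem N _) ((D N).mul_mem hYD hα))
  · rw [hE, hA0]; ring
  · rw [hE, e1, hB0]; ring
  · ring
  · ring

end Pool.Agent.H747BS
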