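import Mathlib
import Pool.Agent.H747BS.A3
import Pool.Agent.H747BS.A5a

/-!
The congruences, products, powers and sums modulo `n ^ (2 y) - 1` are definable in `BS(1,n)`.
-/

set_option autoImplicit false
set_option linter.unusedSectionVars false

namespace Pool.Agent.H747BS

/-- the base -/
def nn (n : ℤ) : ℕ := n.natAbs ^ 2

theorem nn_cast (n : ℤ) : ((nn n : ℕ) : ℚ) = (n : ℚ) ^ 2 := by
  unfold nn
  have : ((n.natAbs ^ 2 : ℕ) : ℤ) = n ^ 2 := by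
    push_cast
    exact sq_abs n
  have h2 : (((n.natAbs ^ 2 : ℕ) : ℤ) : ℚ) = ((n ^ 2 : ℤ) : ℚ) := by rw [this]
  rw [Int.cast_natCast] at h2
  rw [h2]
  push_cast
  rfl

variable {n : ℤ} [Hyp n]

theorem two_le_nn (n : ℤ) [h : Hyp n] : 2 ≤ nn n := by
  unfold nn
  have h1 := h.out
  have h2 : 2 ≤ n.natAbs := by
    have : (2 : ℤ) ≤ (n.natAbs : ℤ) := by rw [Int.natCast_natAbs]; exact h1
    exact_mod_cast this
  nlinarith

theorem nn_ne (n : ℤ) [Hyp n] : nn n ≠ 0 := by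
  have := two_le_nn n
  omega

theorem nn_zpow (n : ℤ) [Hyp n] (y : ℤ) : ((nn n : ℕ) : ℚ) ^ y = (n : ℚ) ^ (y + y) := by
  rw [nn_cast, ← zpow_natCast, ← zpow_mul]
  congr 1
  push_cast
  ring

/-- the element of the normal subgroup with the given value -/
def HasX (g : G n) (q : ℚ) : Prop := rho n g = ⟨q, 0⟩

theorem hx_mul {g h : G n} {q r : ℚ} (hg : HasX g q) (hh : HasX h r) : HasX (g * h) (q + r) := by
  unfold HasX at *
  rw [map_mul, hg, hh]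
  ext <;> simp

theorem hx_inv {g : G n} {q : ℚ} (hg : HasX g q) : HasX g⁻¹ (-q) := by
  unfold HasX at *
  rw [map_inv, hg]
  ext <;> simp

/-- conjugation -/
def cj (T g : G n) : G n := T * g * T⁻¹

theorem hx_cj {g T : G n} {q : ℚ} {y : ℤ} (hT : T = (gt n) ^ y) (hg : HasX g q) :
    HasX (cj T g) ((n : ℚ) ^ y * q) := by
  unfold HasX cj at *
  rw [map_mul, map_mul, map_inv, hg, hT, rho_gt_zpow]
  ext <;> simp

theorem hx_cj2 {g T : G n} {q : ℚ} {y : ℤ} (hT : T = (gt n) ^ y) (hg : HasX g q) :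
    HasX (cj (T * T) g) (((nn n : ℕ) : ℚ) ^ y * q) := by
  rw [nn_zpow]
  exact hx_cj (by rw [hT, ← zpow_add]) hg

theorem hx_cj4 {g T : G n} {q : ℚ} {y : ℤ} (hT : T = (gt n) ^ y) (hg : HasX g q) :
    HasX (cj (T * T * (T * T)) g) ((((nn n : ℕ) : ℚ) ^ y) ^ 2 * q) := by
  have e : (((nn n : ℕ) : ℚ) ^ y) ^ 2 = (n : ℚ) ^ (y + y + (y + y)) := by
    rw [nn_zpow, zpow_add₀ (ne0 n) (y + y)]; ring
  rw [e]
  exact hx_cj (by rw [hT, ← zpow_add, ← zpow_add]) hg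

theorem hx_ga : HasX (ga n) 1 := rho_ga n

theorem hx_ga_zpow (l : ℤ) : HasX ((ga n) ^ l) (l : ℚ) := rho_ga_zpow n l

theorem hx_one : HasX (1 : G n) 0 := by
  unfold HasX
  rw [map_one]
  rfl

theorem hx_eq {g h : G n} {q r : ℚ} (hg : HasX g q) (hh : HasX h r) : g = h ↔ q = r := by
  unfold HasX at *
  constructor
  · intro e
    rw [e, hh] at hg
    exact (congrArg Aff.x hg).symm
  · intro e
    apply rho_inj n
    rw [hg, hh, e]

theorem exists_hx {q : ℚ} (hq : q ∈ D (nn n)) : ∃ g : G n, HasX g q := by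
  obtain ⟨l, i, rfl⟩ := (mem_D (nn_ne n) q).1 hq
  refine ⟨((gt n) ^ (2 * i))⁻¹ * (ga n) ^ l * (gt n) ^ (2 * i), ?_⟩
  unfold HasX
  rw [rho_normal, nn_cast, ← pow_mul]
  simp

/-- ring elements -/
def IsR (g : G n) : Prop := g * (ga n) = (ga n) * g

theorem isR_of_hx {g : G n} {q : ℚ} (h : HasX g q) : IsR g := by
  apply rho_inj n
  unfold HasX at h
  rw [map_mul, map_mul, h, rho_ga]
  ext
  · simp; ring
  · simp

theorem hx_of_isR {g : G n} (h : IsR g) : ∃ q ∈ D (nn n), HasX g q := by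
  have h1 := congrArg (fun g => (rho n g).x) h
  simp only [map_mul, rho_ga, Aff.mul_x, mul_one, zpow_zero, one_mul] at h1
  have h2 : (n : ℚ) ^ (rho n g).m = (n : ℚ) ^ (0 : ℤ) := by rw [zpow_zero]; linarith
  have h3 : (rho n g).m = 0 := zpow_inj n h2
  obtain ⟨i, j, l, e⟩ := normal_form n g
  refine ⟨(rho n g).x, ?_, ?_⟩
  · rw [mem_D (nn_ne n)]
    refine ⟨l * n ^ i, i, ?_⟩
    rw [e, rho_normal, nn_cast]
    have := ne0 n
    push_cast
    field_simp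
    ring
  · unfold HasX
    ext
    · rfl
    · exact h3

/-- exponents -/
def IsE (g : G n) : Prop := g * (gt n) = (gt n) * g

theorem isE_zpow (y : ℤ) : IsE ((gt n) ^ y) := (comm_gt _).2 ⟨y, rfl⟩

theorem GT.cj {α : Type} {f g : (α → G n) → G n} (hf : GT f) (hg : GT g) :
    GT (fun v => H747BS.cj (f v) (g v)) :=
  GT.mul (GT.mul hf hg) (GT.inv hf)

theorem GD.isR {α : Type} {f : (α → G n) → G n} (hf : GT f) : GD (fun v => IsR (f v)) :=
  GD.eq (GT.mul hf GT.ga) (GT.mul GT.ga hf)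

theorem GD.isE {α : Type} {f : (α → G n) → G n} (hf : GT f) : GD (fun v => IsE (f v)) :=
  GD.eq (GT.mul hf GT.gt) (GT.mul GT.gt hf)

theorem GD.pred2 {α : Type} {R : G n → G n → Prop} (h : GD (fun v : Fin 2 → G n => R (v 0) (v 1)))
    {f g : (α → G n) → G n} (hf : GT f) (hg : GT g) : GD (fun v => R (f v) (g v)) := by
  have := h.subst (α := α) (F := ![f, g]) (by
    intro c
    fin_cases c
    · exact hf
    · exact hg)
  exact this

theorem GD.pred3 {α : Type} {R : G n → G n → G n → Prop}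
    (h : GD (fun v : Fin 3 → G n => R (v 0) (v 1) (v 2)))
    {f g k : (α → G n) → G n} (hf : GT f) (hg : GT g) (hk : GT k) :
    GD (fun v => R (f v) (g v) (k v)) := by
  have := h.subst (α := α) (F := ![f, g, k]) (by
    intro c
    fin_cases c
    · exact hf
    · exact hg
    · exact hk)
  exact this

theorem GD.pred4 {α : Type} {R : G n → G n → G n → G n → Prop}
    (h : GD (fun v : Fin 4 → G n => R (v 0) (v 1) (v 2) (v 3)))
    {f g k m : (α → G n) → G n} (hf : GT f) (hg : GT g) (hk : GT k) (hm : GT m) :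
    GD (fun v => R (f v) (g v) (k v) (m v)) := by
  have := h.subst (α := α) (F := ![f, g, k, m]) (by
    intro c
    fin_cases c
    · exact hf
    · exact hg
    · exact hk
    · exact hm)
  exact this

/-! ### congruence -/

def CgG (Y a b : G n) : Prop := ∃ k : Fin 1 → G n, IsR (k 0) ∧
  a * b⁻¹ = cj (Y * Y) (k 0) * (k 0)⁻¹

theorem gd_cg : GD (fun v : Fin 3 → G n => CgG (v 0) (v 1) (v 2)) := by
  unfold CgG
  have h1 : GD (fun w : Fin 3 ⊕ Fin 1 → G n => IsR (w (Sum.inr 0))) := GD.isR (GT.var _)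
  have h2 : GD (fun w : Fin 3 ⊕ Fin 1 → G n => w (Sum.inl 1) * (w (Sum.inl 2))⁻¹ =
      cj (w (Sum.inl 0) * w (Sum.inl 0)) (w (Sum.inr 0)) * (w (Sum.inr 0))⁻¹) :=
    GD.eq (GT.mul (GT.var _) (GT.inv (GT.var _)))
      (GT.mul (GT.cj (GT.mul (GT.var _) (GT.var _)) (GT.var _)) (GT.inv (GT.var _)))
  exact GD.exs (h1.and h2)

theorem cgG_iff {Y a b : G n} {y : ℤ} {q r : ℚ} (hY : Y = (gt n) ^ y) (ha : HasX a q)
    (hb : HasX b r) : CgG Y a b ↔ Cong (nn n) y q r := by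
  constructor
  · rintro ⟨k, h1, h2⟩
    obtain ⟨c, hc, hk⟩ := hx_of_isR h1
    have := (hx_eq (hx_mul ha (hx_inv hb)) (hx_mul (hx_cj2 hY hk) (hx_inv hk))).1 h2
    exact ⟨c, hc, by linear_combination this⟩
  · rintro ⟨c, hc, h⟩
    obtain ⟨k, hk⟩ := exists_hx (n := n) hc
    refine ⟨fun _ => k, isR_of_hx hk, ?_⟩
    refine (hx_eq (hx_mul ha (hx_inv hb)) (hx_mul (hx_cj2 hY hk) (hx_inv hk))).2 ?_
    linear_combination h

/-! ### the gadget for binomial coefficients -/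

def GdG (Y E A W : G n) : Prop := ∃ t : Fin 2 → G n, (IsR (t 0) ∧ IsR (t 1)) ∧
  (cj (Y * Y) A * A⁻¹ = cj (E * E) (ga n) * (ga n)⁻¹ ∧
  (cj (Y * Y * (Y * Y)) (t 0) * (t 0)⁻¹ = cj (E * E * (E * E)) (ga n) * (ga n)⁻¹ ∧
  t 0 * A⁻¹ = (cj (Y * Y) W * W⁻¹) * ((cj (Y * Y * (Y * Y)) (t 1) * (cj (Y * Y) (t 1))⁻¹) *
    ((cj (Y * Y) (t 1))⁻¹ * t 1))))

theorem gd_gd : GD (fun v : Fin 4 → G n => GdG (v 0) (v 1) (v 2) (v 3)) := by
  have h : GD (fun w : Fin 4 ⊕ Fin 2 → G n => (IsR (w (Sum.inr 0)) ∧ IsR (w (Sum.inr 1))) ∧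
    (cj (w (Sum.inl 0) * w (Sum.inl 0)) (w (Sum.inl 2)) * (w (Sum.inl 2))⁻¹ =
      cj (w (Sum.inl 1) * w (Sum.inl 1)) (ga n) * (ga n)⁻¹ ∧
    (cj (w (Sum.inl 0) * w (Sum.inl 0) * (w (Sum.inl 0) * w (Sum.inl 0))) (w (Sum.inr 0)) *
      (w (Sum.inr 0))⁻¹ =
      cj (w (Sum.inl 1) * w (Sum.inl 1) * (w (Sum.inl 1) * w (Sum.inl 1))) (ga n) * (ga n)⁻¹ ∧
    w (Sum.inr 0) * (w (Sum.inl 2))⁻¹ =
      (cj (w (Sum.inl 0) * w (Sum.inl 0)) (w (Sum.inl 3)) * (w (Sum.inl 3))⁻¹) *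
      ((cj (w (Sum.inl 0) * w (Sum.inl 0) * (w (Sum.inl 0) * w (Sum.inl 0))) (w (Sum.inr 1)) *
        (cj (w (Sum.inl 0) * w (Sum.inl 0)) (w (Sum.inr 1)))⁻¹) *
      ((cj (w (Sum.inl 0) * w (Sum.inl 0)) (w (Sum.inr 1)))⁻¹ * w (Sum.inr 1)))))) := by
    refine GD.and (GD.and (GD.isR (GT.var _)) (GD.isR (GT.var _))) (GD.and (GD.eq ?_ ?_)
      (GD.and (GD.eq ?_ ?_) (GD.eq ?_ ?_)))
    all_goals
      repeat' first
        | exact GT.var _
        | exact GT.ga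
        | apply GT.cj
        | apply GT.mul
        | apply GT.inv
  exact GD.exs h

theorem gdG_sound {Y E A W : G n} {y e : ℤ} {a w : ℚ} (hY : Y = (gt n) ^ y) (hy : y ≠ 0)
    (hE : E = (gt n) ^ e) (hA : HasX A a) (haD : a ∈ D (nn n)) (hW : HasX W w)
    (h : GdG Y E A W) :
    ∃ m c : ℤ, e = y * m ∧ 2 * c + m = m * m ∧ Cong (nn n) y a m ∧ Cong (nn n) y w c := by
  obtain ⟨t, ⟨h0, h1⟩, h2, h3, h4⟩ := h
  obtain ⟨B, hB, hB'⟩ := hx_of_isR h0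
  obtain ⟨V, hV, hV'⟩ := hx_of_isR h1
  have e2 := (hx_eq (hx_mul (hx_cj2 hY hA) (hx_inv hA))
    (hx_mul (hx_cj2 hE hx_ga) (hx_inv hx_ga))).1 h2
  have e3 := (hx_eq (hx_mul (hx_cj4 hY hB') (hx_inv hB'))
    (hx_mul (hx_cj4 hE hx_ga) (hx_inv hx_ga))).1 h3
  have e4 := (hx_eq (hx_mul hB' (hx_inv hA)) (hx_mul (hx_mul (hx_cj2 hY hW) (hx_inv hW))
    (hx_mul (hx_mul (hx_cj4 hY hV') (hx_inv (hx_cj2 hY hV')))
      (hx_mul (hx_inv (hx_cj2 hY hV')) hV')))).1 h4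
  exact gad_sound (two_le_nn n) hy (A := a) (B := B) (W := w) (V := V) haD hV
    (by linear_combination e2) (by linear_combination e3) (by linear_combination e4)

theorem gdG_complete (y m c : ℤ) (hc : 2 * c + m = m * m) :
    ∃ A : G n, IsR A ∧ GdG ((gt n) ^ y) ((gt n) ^ (y * m)) A ((ga n) ^ c) ∧
      CgG ((gt n) ^ y) ((ga n) ^ m) A := by
  obtain ⟨A, B, V, k, hA, hB, hV, hk, e1, e2, e3, e4⟩ := gad_complete (two_le_nn n) y m c hc
  obtain ⟨gA, hgA⟩ := exists_hx (n := n) hA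
  obtain ⟨gB, hgB⟩ := exists_hx (n := n) hB
  obtain ⟨gV, hgV⟩ := exists_hx (n := n) hV
  refine ⟨gA, isR_of_hx hgA, ⟨![gB, gV], ⟨isR_of_hx hgB, isR_of_hx hgV⟩, ?_, ?_, ?_⟩, ?_⟩
  · refine (hx_eq (hx_mul (hx_cj2 rfl hgA) (hx_inv hgA))
      (hx_mul (hx_cj2 rfl hx_ga) (hx_inv hx_ga))).2 ?_
    linear_combination e1
  · refine (hx_eq (hx_mul (hx_cj4 rfl hgB) (hx_inv hgB))
      (hx_mul (hx_cj4 rfl hx_ga) (hx_inv hx_ga))).2 ?_
    linear_combination e2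
  · refine (hx_eq (hx_mul hgB (hx_inv hgA)) (hx_mul (hx_mul (hx_cj2 rfl (hx_ga_zpow c))
      (hx_inv (hx_ga_zpow c))) (hx_mul (hx_mul (hx_cj4 rfl hgV) (hx_inv (hx_cj2 rfl hgV)))
      (hx_mul (hx_inv (hx_cj2 rfl hgV)) hgV)))).2 ?_
    linear_combination e3
  · exact (cgG_iff rfl (hx_ga_zpow m) hgA).2 ⟨k, hk, e4⟩

end Pool.Agent.H747BS
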