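import Mathlib
import Pool.Agent.H747BS.A5b

/-!
Products, powers, sums and the certificate in `BS(1,n)`.
-/

set_option autoImplicit false
set_option linter.unusedSectionVars false

namespace Pool.Agent.H747BS

variable {n : ℤ} [Hyp n]

/-! ### products modulo `N ^ y - 1` -/

def PG (Y z z' t : G n) : Prop := ∃ s : Fin 8 → G n,
  (IsE (s 0) ∧ IsE (s 1)) ∧ ((IsR (s 2) ∧ (IsR (s 3) ∧ IsR (s 4))) ∧
  (IsR (s 5) ∧ (IsR (s 6) ∧ IsR (s 7)))) ∧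
  (GdG Y (s 0) (s 2) (s 5) ∧ (GdG Y (s 1) (s 3) (s 6) ∧ GdG Y (s 0 * s 1) (s 4) (s 7))) ∧
  (CgG Y z (s 2) ∧ (CgG Y z' (s 3) ∧ CgG Y t (s 7 * (s 5)⁻¹ * (s 6)⁻¹)))

theorem gd_p : GD (fun v : Fin 4 → G n => PG (v 0) (v 1) (v 2) (v 3)) := by
  have h : GD (fun w : Fin 4 ⊕ Fin 8 → G n =>
    (IsE (w (Sum.inr 0)) ∧ IsE (w (Sum.inr 1))) ∧
    ((IsR (w (Sum.inr 2)) ∧ (IsR (w (Sum.inr 3)) ∧ IsR (w (Sum.inr 4)))) ∧
      (IsR (w (Sum.inr 5)) ∧ (IsR (w (Sum.inr 6)) ∧ IsR (w (Sum.inr 7))))) ∧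
    (GdG (w (Sum.inl 0)) (w (Sum.inr 0)) (w (Sum.inr 2)) (w (Sum.inr 5)) ∧
      (GdG (w (Sum.inl 0)) (w (Sum.inr 1)) (w (Sum.inr 3)) (w (Sum.inr 6)) ∧
      GdG (w (Sum.inl 0)) (w (Sum.inr 0) * w (Sum.inr 1)) (w (Sum.inr 4)) (w (Sum.inr 7)))) ∧
    (CgG (w (Sum.inl 0)) (w (Sum.inl 1)) (w (Sum.inr 2)) ∧
      (CgG (w (Sum.inl 0)) (w (Sum.inl 2)) (w (Sum.inr 3)) ∧
      CgG (w (Sum.inl 0)) (w (Sum.inl 3))
        (w (Sum.inr 7) * (w (Sum.inr 5))⁻¹ * (w (Sum.inr 6))⁻¹)))) := by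
    have v : ∀ c, GT (fun w : Fin 4 ⊕ Fin 8 → G n => w c) := fun c => GT.var c
    refine GD.and (GD.and (GD.isE (v _)) (GD.isE (v _))) (GD.and (GD.and
      (GD.and (GD.isR (v _)) (GD.and (GD.isR (v _)) (GD.isR (v _))))
      (GD.and (GD.isR (v _)) (GD.and (GD.isR (v _)) (GD.isR (v _)))))
      (GD.and (GD.and (GD.pred4 gd_gd (v _) (v _) (v _) (v _))
        (GD.and (GD.pred4 gd_gd (v _) (v _) (v _) (v _))
          (GD.pred4 gd_gd (v _) (GT.mul (v _) (v _)) (v _) (v _))))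
      (GD.and (GD.pred3 gd_cg (v _) (v _) (v _)) (GD.and (GD.pred3 gd_cg (v _) (v _) (v _))
        (GD.pred3 gd_cg (v _) (v _) (GT.mul (GT.mul (v _) (GT.inv (v _))) (GT.inv (v _))))))))
  exact GD.exs h

theorem pG_sound {Y z z' t : G n} {y : ℤ} {q q' r : ℚ} (hY : Y = (gt n) ^ y) (hy : y ≠ 0)
    (hz : HasX z q) (hz' : HasX z' q') (ht : HasX t r) (hq : q ∈ D (nn n))
    (h : PG Y z z' t) : Cong (nn n) y r (q * q') := by
  obtain ⟨s, ⟨h0, h1⟩, ⟨⟨h2, h3, h4⟩, ⟨h5, h6, h7⟩⟩, ⟨g1, g2, g3⟩, ⟨c1, c2, c3⟩⟩ := h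
  obtain ⟨e, he⟩ := (comm_gt _).1 h0
  obtain ⟨e', he'⟩ := (comm_gt _).1 h1
  obtain ⟨a, ha, ha'⟩ := hx_of_isR h2
  obtain ⟨b, hb, hb'⟩ := hx_of_isR h3
  obtain ⟨c, hc, hc'⟩ := hx_of_isR h4
  obtain ⟨w, hw, hw'⟩ := hx_of_isR h5
  obtain ⟨w2, hw2, hw2'⟩ := hx_of_isR h6
  obtain ⟨w3, hw3, hw3'⟩ := hx_of_isR h7
  obtain ⟨m, k, i1, i2, i3, i4⟩ := gdG_sound hY hy he ha' ha hw' g1
  obtain ⟨m', k', j1, j2, j3, j4⟩ := gdG_sound hY hy he' hb' hb hw2' g2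
  obtain ⟨m'', k'', l1, l2, l3, l4⟩ := gdG_sound hY hy
    (show s 0 * s 1 = (gt n) ^ (e + e') by rw [he, he', zpow_add]) hc' hc hw3' g3
  have hm : m'' = m + m' := by
    apply mul_left_cancel₀ hy
    rw [← l1, i1, j1]; ring
  have hk : k'' - k - k' = m * m' := by
    rw [hm] at l2
    have : 2 * (k'' - k - k') = 2 * (m * m') := by linear_combination l2 - i2 - j2
    linarith
  have d1 := (cgG_iff hY hz ha').1 c1
  have d2 := (cgG_iff hY hz' hb').1 c2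
  have d3 := (cgG_iff hY ht (hx_mul (hx_mul hw3' (hx_inv hw')) (hx_inv hw2'))).1 c3
  have d4 : Cong (nn n) y (w3 + -w + -w2) ((k'' : ℚ) - k - k') := by
    have := (l4.sub i4).sub j4
    have e0 : w3 + -w + -w2 = w3 - w - w2 := by ring
    rw [e0]
    exact this
  have d5 : ((k'' : ℚ) - k - k') = (m : ℚ) * (m' : ℚ) := by exact_mod_cast hk
  rw [d5] at d4
  have d6 : Cong (nn n) y (q * q') ((m : ℚ) * m') :=
    (d1.trans i3).mul (d2.trans j3) hq (int_mem _ _)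
  exact (d3.trans d4).trans d6.symm

theorem exists_choose (m : ℤ) : ∃ c : ℤ, 2 * c + m = m * m := by
  obtain ⟨c, hc⟩ := Int.even_mul_pred_self m
  exact ⟨c, by linear_combination -hc⟩

theorem pG_complete (y a b : ℤ) :
    PG ((gt n) ^ y) ((ga n) ^ a) ((ga n) ^ b) ((ga n) ^ (a * b)) := by
  obtain ⟨c, hc⟩ := exists_choose a
  obtain ⟨c', hc'⟩ := exists_choose b
  have hc'' : 2 * (c + c' + a * b) + (a + b) = (a + b) * (a + b) := by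
    linear_combination hc + hc'
  obtain ⟨A, iA, gA, cA⟩ := gdG_complete (n := n) y a c hc
  obtain ⟨A', iA', gA', cA'⟩ := gdG_complete (n := n) y b c' hc'
  obtain ⟨A'', iA'', gA'', cA''⟩ := gdG_complete (n := n) y (a + b) _ hc''
  refine ⟨![(gt n) ^ (y * a), (gt n) ^ (y * b), A, A', A'', (ga n) ^ c, (ga n) ^ c',
    (ga n) ^ (c + c' + a * b)], ⟨isE_zpow _, isE_zpow _⟩, ⟨⟨iA, iA', iA''⟩,
    ⟨isR_of_hx (hx_ga_zpow _), isR_of_hx (hx_ga_zpow _), isR_of_hx (hx_ga_zpow _)⟩⟩,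
    ⟨gA, gA', ?_⟩, ⟨cA, cA', ?_⟩⟩
  · change GdG ((gt n) ^ y) ((gt n) ^ (y * a) * (gt n) ^ (y * b)) A''
      ((ga n) ^ (c + c' + a * b))
    rw [← zpow_add, ← mul_add]
    exact gA''
  · change CgG ((gt n) ^ y) ((ga n) ^ (a * b))
      ((ga n) ^ (c + c' + a * b) * ((ga n) ^ c)⁻¹ * ((ga n) ^ c')⁻¹)
    rw [cgG_iff rfl (hx_ga_zpow _) (hx_mul (hx_mul (hx_ga_zpow _) (hx_inv (hx_ga_zpow _)))
      (hx_inv (hx_ga_zpow _)))]
    have : (((c + c' + a * b : ℤ) : ℚ) + -(c : ℚ) + -(c' : ℚ)) = ((a * b : ℤ) : ℚ) := by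
      push_cast; ring
    rw [this]
    exact Cong.refl _

/-! ### powers -/

def PowG (Y z : G n) : ℕ → G n → Prop
  | 0, t => t = ga n
  | k + 1, t => ∃ s : Fin 1 → G n, IsR (s 0) ∧ (PowG Y z k (s 0) ∧ PG Y (s 0) z t)

theorem gd_pow (k : ℕ) : GD (fun v : Fin 3 → G n => PowG (v 0) (v 1) k (v 2)) := by
  induction k with
  | zero => exact GD.eq (GT.var _) GT.ga
  | succ k ih =>
    have v : ∀ c, GT (fun w : Fin 3 ⊕ Fin 1 → G n => w c) := fun c => GT.var c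
    have h : GD (fun w : Fin 3 ⊕ Fin 1 → G n => IsR (w (Sum.inr 0)) ∧
        (PowG (w (Sum.inl 0)) (w (Sum.inl 1)) k (w (Sum.inr 0)) ∧
          PG (w (Sum.inl 0)) (w (Sum.inr 0)) (w (Sum.inl 1)) (w (Sum.inl 2)))) :=
      (GD.isR (v _)).and ((GD.pred3 (R := fun a b c => PowG a b k c) ih (v _) (v _) (v _)).and
        (GD.pred4 gd_p (v _) (v _) (v _) (v _)))
    exact GD.exs h

theorem powG_sound {Y z : G n} {y : ℤ} {q : ℚ} (hY : Y = (gt n) ^ y) (hy : y ≠ 0)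
    (hz : HasX z q) (hq : q ∈ D (nn n)) (k : ℕ) :
    ∀ (t : G n) (r : ℚ), HasX t r → PowG Y z k t → Cong (nn n) y r (q ^ k) := by
  induction k with
  | zero =>
    intro t r ht h
    have : r = 1 := (hx_eq ht hx_ga).1 h
    rw [this, pow_zero]
    exact Cong.refl _
  | succ k ih =>
    rintro t r ht ⟨s, h1, h2, h3⟩
    obtain ⟨a, ha, ha'⟩ := hx_of_isR h1
    have e1 := ih _ _ ha' h2
    have e2 := pG_sound hY hy ha' hz ht ha h3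
    rw [pow_succ]
    exact e2.trans (e1.mul (Cong.refl q) ha hq)

theorem powG_complete (y a : ℤ) (k : ℕ) :
    PowG ((gt n) ^ y) ((ga n) ^ a) k ((ga n) ^ (a ^ k)) := by
  induction k with
  | zero =>
    change (ga n) ^ (a ^ 0) = ga n
    rw [pow_zero, zpow_one]
  | succ k ih =>
    refine ⟨fun _ => (ga n) ^ (a ^ k), isR_of_hx (hx_ga_zpow _), ih, ?_⟩
    rw [pow_succ]
    exact pG_complete _ _ _

/-! ### sums of powers -/

def SumG (Y w : G n) : ℕ → G n → Prop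
  | 0, t => t = 1
  | k + 1, t => ∃ s : Fin 2 → G n, (IsR (s 0) ∧ IsR (s 1)) ∧
      (SumG Y w k (s 0) ∧ (PowG Y w k (s 1) ∧ t = s 0 * s 1))

theorem gd_sum (k : ℕ) : GD (fun v : Fin 3 → G n => SumG (v 0) (v 1) k (v 2)) := by
  induction k with
  | zero =>
    refine (GD.eq (GT.var 2) (GT.mul (GT.var 0) (GT.inv (GT.var 0)))).congr fun v => ?_
    change v 2 = 1 ↔ v 2 = v 0 * (v 0)⁻¹
    rw [mul_inv_cancel]
  | succ k ih =>
    have v : ∀ c, GT (fun w : Fin 3 ⊕ Fin 2 → G n => w c) := fun c => GT.var c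
    have h : GD (fun w : Fin 3 ⊕ Fin 2 → G n => (IsR (w (Sum.inr 0)) ∧ IsR (w (Sum.inr 1))) ∧
        (SumG (w (Sum.inl 0)) (w (Sum.inl 1)) k (w (Sum.inr 0)) ∧
          (PowG (w (Sum.inl 0)) (w (Sum.inl 1)) k (w (Sum.inr 1)) ∧
            w (Sum.inl 2) = w (Sum.inr 0) * w (Sum.inr 1)))) :=
      ((GD.isR (v _)).and (GD.isR (v _))).and
        ((GD.pred3 (R := fun a b c => SumG a b k c) ih (v _) (v _) (v _)).and
        ((GD.pred3 (R := fun a b c => PowG a b k c) (gd_pow k) (v _) (v _) (v _)).and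
        (GD.eq (v _) (GT.mul (v _) (v _)))))
    exact GD.exs h

theorem sumG_sound {Y w : G n} {y : ℤ} {q : ℚ} (hY : Y = (gt n) ^ y) (hy : y ≠ 0)
    (hw : HasX w q) (hq : q ∈ D (nn n)) (k : ℕ) :
    ∀ (t : G n) (r : ℚ), HasX t r → SumG Y w k t →
      Cong (nn n) y r (∑ i ∈ Finset.range k, q ^ i) := by
  induction k with
  | zero =>
    intro t r ht h
    have : r = 0 := (hx_eq ht hx_one).1 h
    rw [this, Finset.sum_range_zero]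
    exact Cong.refl _
  | succ k ih =>
    rintro t r ht ⟨s, ⟨h0, h1⟩, h2, h3, h4⟩
    obtain ⟨a, ha, ha'⟩ := hx_of_isR h0
    obtain ⟨b, hb, hb'⟩ := hx_of_isR h1
    have e1 := ih _ _ ha' h2
    have e2 := powG_sound hY hy hw hq k _ _ hb' h3
    have e3 : r = a + b := (hx_eq ht (hx_mul ha' hb')).1 h4
    rw [Finset.sum_range_succ, e3]
    exact e1.add e2

theorem sumG_complete (y a : ℤ) (k : ℕ) :
    SumG ((gt n) ^ y) ((ga n) ^ a) k ((ga n) ^ (∑ i ∈ Finset.range k, a ^ i)) := by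
  induction k with
  | zero =>
    change (ga n) ^ (∑ i ∈ Finset.range 0, a ^ i) = 1
    rw [Finset.sum_range_zero, zpow_zero]
  | succ k ih =>
    refine ⟨![(ga n) ^ (∑ i ∈ Finset.range k, a ^ i), (ga n) ^ (a ^ k)],
      ⟨isR_of_hx (hx_ga_zpow _), isR_of_hx (hx_ga_zpow _)⟩, ih, powG_complete _ _ _, ?_⟩
    change (ga n) ^ (∑ i ∈ Finset.range (k + 1), a ^ i) = (ga n) ^ (∑ i ∈ Finset.range k, a ^ i) *
      (ga n) ^ (a ^ k)
    rw [Finset.sum_range_succ, zpow_add]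

/-! ### the certificate -/

def CertG (l K : ℕ) (U Y : G n) : Prop := ∃ s : Fin 4 → G n,
  ((IsR (s 0) ∧ IsR (s 1)) ∧ (IsR (s 2) ∧ IsR (s 3))) ∧
  (PowG Y (s 0) K (s 1) ∧ (SumG Y (s 1) l (s 2) ∧
    cj (Y * Y) (s 3) * (s 3)⁻¹ = cj (U * U) (s 2) * (s 2)⁻¹))

theorem gd_cert (l K : ℕ) : GD (fun v : Fin 2 → G n => CertG l K (v 0) (v 1)) := by
  have v : ∀ c, GT (fun w : Fin 2 ⊕ Fin 4 → G n => w c) := fun c => GT.var c
  have h : GD (fun w : Fin 2 ⊕ Fin 4 → G n =>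
      ((IsR (w (Sum.inr 0)) ∧ IsR (w (Sum.inr 1))) ∧
        (IsR (w (Sum.inr 2)) ∧ IsR (w (Sum.inr 3)))) ∧
      (PowG (w (Sum.inl 1)) (w (Sum.inr 0)) K (w (Sum.inr 1)) ∧
        (SumG (w (Sum.inl 1)) (w (Sum.inr 1)) l (w (Sum.inr 2)) ∧
        cj (w (Sum.inl 1) * w (Sum.inl 1)) (w (Sum.inr 3)) * (w (Sum.inr 3))⁻¹ =
          cj (w (Sum.inl 0) * w (Sum.inl 0)) (w (Sum.inr 2)) * (w (Sum.inr 2))⁻¹))) :=
    (((GD.isR (v _)).and (GD.isR (v _))).and ((GD.isR (v _)).and (GD.isR (v _)))).and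
      ((GD.pred3 (R := fun a b c => PowG a b K c) (gd_pow K) (v _) (v _) (v _)).and
      ((GD.pred3 (R := fun a b c => SumG a b l c) (gd_sum l) (v _) (v _) (v _)).and
      (GD.eq (GT.mul (GT.cj (GT.mul (v _) (v _)) (v _)) (GT.inv (v _)))
        (GT.mul (GT.cj (GT.mul (v _) (v _)) (v _)) (GT.inv (v _))))))
  exact GD.exs h

theorem cong_pow {N : ℕ} {y : ℤ} {a b : ℚ} (h : Cong N y a b) (ha : a ∈ D N) (hb : b ∈ D N)
    (i : ℕ) : Cong N y (a ^ i) (b ^ i) := by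
  induction i with
  | zero =>
    rw [pow_zero, pow_zero]
    exact Cong.refl _
  | succ i ih =>
    rw [pow_succ, pow_succ]
    exact ih.mul h ((D N).pow_mem ha i) hb

theorem cong_sum {N : ℕ} {y : ℤ} {a b : ℚ} (h : Cong N y a b) (ha : a ∈ D N) (hb : b ∈ D N)
    (l : ℕ) : Cong N y (∑ i ∈ Finset.range l, a ^ i) (∑ i ∈ Finset.range l, b ^ i) := by
  induction l with
  | zero =>
    rw [Finset.sum_range_zero, Finset.sum_range_zero]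
    exact Cong.refl _
  | succ l ih =>
    rw [Finset.sum_range_succ, Finset.sum_range_succ]
    exact ih.add (cong_pow h ha hb l)

theorem certG_sound {l K : ℕ} {U Y : G n} {u y : ℤ} (hU : U = (gt n) ^ u) (hY : Y = (gt n) ^ y)
    (hy : y ≠ 0) (h : CertG l K U Y) : ∃ z ∈ D (nn n), ∃ m ∈ D (nn n),
      (((nn n : ℕ) : ℚ) ^ y - 1) * m = Fpoly l K z * (((nn n : ℕ) : ℚ) ^ u - 1) := by
  obtain ⟨s, ⟨⟨h0, h1⟩, h2, h3⟩, h4, h5, h6⟩ := h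
  obtain ⟨z, hz, hz'⟩ := hx_of_isR h0
  obtain ⟨w, hw, hw'⟩ := hx_of_isR h1
  obtain ⟨f, hf, hf'⟩ := hx_of_isR h2
  obtain ⟨m, hm, hm'⟩ := hx_of_isR h3
  have e1 := powG_sound hY hy hz' hz K _ _ hw' h4
  have e2 := sumG_sound hY hy hw' hw l _ _ hf' h5
  have e3 := (hx_eq (hx_mul (hx_cj2 hY hm') (hx_inv hm'))
    (hx_mul (hx_cj2 hU hf') (hx_inv hf'))).1 h6
  obtain ⟨k, hk, e4⟩ := e2.trans (cong_sum e1 hw ((D _).pow_mem hz K) l)
  refine ⟨z, hz, m - k * (((nn n : ℕ) : ℚ) ^ u - 1), (D _).sub_mem hm ((D _).mul_mem hk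
    ((D _).sub_mem (zpow_mem (nn_ne n) u) (D _).one_mem)), ?_⟩
  have e5 : Fpoly l K z = f - (((nn n : ℕ) : ℚ) ^ y - 1) * k := by
    unfold Fpoly
    linear_combination -e4
  rw [e5]
  linear_combination e3

theorem certG_complete {l K : ℕ} (u y z m : ℤ)
    (h : (((nn n : ℕ) : ℚ) ^ y - 1) * (m : ℚ) =
      ((Fpoly l K z : ℤ) : ℚ) * (((nn n : ℕ) : ℚ) ^ u - 1)) :
    CertG l K ((gt n) ^ u) ((gt n) ^ y) := by
  refine ⟨![(ga n) ^ z, (ga n) ^ (z ^ K), (ga n) ^ (Fpoly l K z), (ga n) ^ m],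
    ⟨⟨isR_of_hx (hx_ga_zpow _), isR_of_hx (hx_ga_zpow _)⟩, isR_of_hx (hx_ga_zpow _),
      isR_of_hx (hx_ga_zpow _)⟩, powG_complete _ _ _, sumG_complete _ _ _, ?_⟩
  refine (hx_eq (hx_mul (hx_cj2 rfl (hx_ga_zpow m)) (hx_inv (hx_ga_zpow m)))
    (hx_mul (hx_cj2 rfl (hx_ga_zpow (Fpoly l K z))) (hx_inv (hx_ga_zpow (Fpoly l K z))))).2 ?_
  linear_combination h

end Pool.Agent.H747BS
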