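import Mathlib
import Pool.Agent.H747BS.A5c
import Pool.Agent.H747BS.A2
import Pool.Agent.H747BS.A3c
import Pool.Agent.H747BS.A4

/-!
Divisibility, the certificate, squares and products of exponents are definable in `BS(1,n)`.
-/

set_option autoImplicit false
set_option linter.unusedSectionVars false

namespace Pool.Agent.H747BS

variable {n : ℤ} [Hyp n]

/-- divisibility is definable -/
theorem ed_dvd : ED n (fun v : Fin 2 → ℤ => v 0 ∣ v 1) := by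
  refine ⟨fun v => ∃ t : Fin 1 → G n, IsR (t 0) ∧
    cj (v 0 * v 0) (t 0) * (t 0)⁻¹ = cj (v 1 * v 1) (ga n) * (ga n)⁻¹, ?_, fun v => ?_⟩
  · have h : GD (fun w : Fin 2 ⊕ Fin 1 → G n => IsR (w (Sum.inr 0)) ∧
        cj (w (Sum.inl 0) * w (Sum.inl 0)) (w (Sum.inr 0)) *
        (w (Sum.inr 0))⁻¹ = cj (w (Sum.inl 1) * w (Sum.inl 1)) (ga n) * (ga n)⁻¹) :=
      (GD.isR (GT.var _)).and (GD.eq (GT.mul (GT.cj (GT.mul (GT.var _) (GT.var _)) (GT.var _))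
        (GT.inv (GT.var _))) (GT.mul (GT.cj (GT.mul (GT.var _) (GT.var _)) GT.ga) (GT.inv GT.ga)))
    exact GD.exs h
  · change v 0 ∣ v 1 ↔ _
    rw [← dvdD (nn n) (two_le_nn n)]
    constructor
    · rintro ⟨A, hA, h⟩
      obtain ⟨g, hg⟩ := exists_hx (n := n) hA
      refine ⟨fun _ => g, isR_of_hx hg, ?_⟩
      refine (hx_eq (hx_mul (hx_cj2 rfl hg) (hx_inv hg))
        (hx_mul (hx_cj2 rfl hx_ga) (hx_inv hx_ga))).2 ?_
      linear_combination h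
    · rintro ⟨t, h1, h2⟩
      obtain ⟨q, hq, hg⟩ := hx_of_isR h1
      refine ⟨q, hq, ?_⟩
      have := (hx_eq (hx_mul (hx_cj2 rfl hg) (hx_inv hg))
        (hx_mul (hx_cj2 rfl hx_ga) (hx_inv hx_ga))).1 h2
      linear_combination this

/-- the certificate as a relation between exponents -/
def CC (n : ℤ) [Hyp n] (l v : ℕ) (u y : ℤ) : Prop :=
  CertG l (l ^ v) ((gt n) ^ (((l ^ v : ℕ) : ℤ) * u)) ((gt n) ^ (((l ^ v : ℕ) : ℤ) * y))

theorem ed_cc (l v : ℕ) : ED n (fun w : Fin 2 → ℤ => CC n l v (w 0) (w 1)) := by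
  have h0 : ED n (fun w : Fin 2 → ℤ => CertG l (l ^ v) ((gt n) ^ (w 0)) ((gt n) ^ (w 1))) :=
    ⟨_, gd_cert l (l ^ v), fun w => Iff.rfl⟩
  exact ED.pred2 (R := fun a b => CertG l (l ^ v) ((gt n) ^ a) ((gt n) ^ b)) h0
    ((ET.var 0).smul ((l ^ v : ℕ) : ℤ)) ((ET.var 1).smul ((l ^ v : ℕ) : ℤ))

theorem cc_cert {l v : ℕ} (hl : l.Prime) (h1 : l ∣ nn n) (h2 : l ^ v ∣ nn n)
    (h3 : ¬ l ^ (v + 1) ∣ nn n) : Cert l (CC n l v) := by
  have hK : 0 < l ^ v := pow_pos hl.pos _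
  constructor
  · intro u y hy h d hd hdl hdy hdu
    have hy' : (((l ^ v : ℕ) : ℤ) * y) ≠ 0 := mul_ne_zero (by exact_mod_cast hK.ne') hy
    obtain ⟨z, hz, m, hm, e⟩ := certG_sound rfl rfl hy' h
    exact cert_sound_rat (nn n) l v (two_le_nn n) hl h1 h3 h2 u y z m hz hm e d hd hdl hdy hdu
  · intro x hx s
    obtain ⟨z, m, e⟩ := cert_complete_int (nn n) l v (two_le_nn n) hl h1 x hx (s + 1)
    refine certG_complete _ _ z m ?_
    have e' : ((((nn n : ℕ) : ℤ) ^ (l ^ v * (x * l ^ (s + 1))) - 1 : ℤ) : ℚ) * (m : ℚ) =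
        ((Fpoly l (l ^ v) z : ℤ) : ℚ) * ((((nn n : ℕ) : ℤ) ^ (l ^ v * x) - 1 : ℤ) : ℚ) := by
      exact_mod_cast e
    have c1 : ((nn n : ℕ) : ℚ) ^ (((l ^ v : ℕ) : ℤ) * ((x * l ^ (s + 1) : ℕ) : ℤ)) =
        (((nn n : ℕ) : ℤ) : ℚ) ^ (l ^ v * (x * l ^ (s + 1))) := by
      rw [← Nat.cast_mul, zpow_natCast]
      push_cast
      rfl
    have c2 : ((nn n : ℕ) : ℚ) ^ (((l ^ v : ℕ) : ℤ) * ((x : ℕ) : ℤ)) =
        (((nn n : ℕ) : ℤ) : ℚ) ^ (l ^ v * x) := by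
      rw [← Nat.cast_mul, zpow_natCast]
      push_cast
      rfl
    rw [c1, c2]
    push_cast at e' ⊢
    exact e'

theorem ED.dvd {α : Type} {f g : (α → ℤ) → ℤ} (hf : ET n f) (hg : ET n g) :
    ED n (fun v => f v ∣ g v) := ED.pred2 ed_dvd hf hg

theorem ED.cc (l v : ℕ) {α : Type} {f g : (α → ℤ) → ℤ} (hf : ET n f) (hg : ET n g) :
    ED n (fun w => CC n l v (f w) (g w)) := ED.pred2 (ed_cc l v) hf hg

theorem ED.pl (l v : ℕ) {α : Type} {f : (α → ℤ) → ℤ} (hf : ET n f) :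
    ED n (fun w => PL l (CC n l v) (f w)) :=
  (ED.dvd (ET.const _) hf).and ((ED.dvd (ET.const _) (hf.sub (ET.const 1))).and
    (ED.cc l v (ET.const 1) hf))

theorem ED.sqQ (l v : ℕ) {α : Type} {f g : (α → ℤ) → ℤ} (hf : ET n f) (hg : ET n g) :
    ED n (fun w => SqQ l (CC n l v) (f w) (g w)) :=
  (ED.pl l v hf).and ((ED.pl l v hg).and ((ED.dvd hf hg).and ((ED.dvd (hf.add (ET.const 1))
    (hg.add hf)).and (ED.cc l v (hf.add (ET.const 1)) (hg.add hf)))))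

theorem ed_osq (l v : ℕ) : ED n (fun w : Fin 2 → ℤ => OSq l (CC n l v) (w 0) (w 1)) := by
  have x : ET n (fun w : Fin 2 ⊕ Fin 4 → ℤ => w (Sum.inl 0)) := ET.var _
  have y : ET n (fun w : Fin 2 ⊕ Fin 4 → ℤ => w (Sum.inl 1)) := ET.var _
  have t0 : ET n (fun w : Fin 2 ⊕ Fin 4 → ℤ => w (Sum.inr 0)) := ET.var _
  have t1 : ET n (fun w : Fin 2 ⊕ Fin 4 → ℤ => w (Sum.inr 1)) := ET.var _
  have t2 : ET n (fun w : Fin 2 ⊕ Fin 4 → ℤ => w (Sum.inr 2)) := ET.var _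
  have t3 : ET n (fun w : Fin 2 ⊕ Fin 4 → ℤ => w (Sum.inr 3)) := ET.var _
  have c1 : ET n (fun _ : Fin 2 ⊕ Fin 4 → ℤ => 1) := ET.const 1
  exact ED.exs ((ED.sqQ l v t0 t1).and ((ED.sqQ l v t1 t2).and ((ED.dvd x (t0.sub c1)).and
    (((ED.dvd t1 t3).and ((ED.dvd (t1.sub c1) (t3.sub x)).and
      (ED.dvd (t1.add c1) (t3.add x)))).and
    ((ED.dvd t3 (t2.sub t1)).and ((ED.dvd y ((t1.sub (t0.smul 2)).add c1)).and
    (ED.dvd (x.add (t1.smul 2)) ((y.add (t3.smul 4)).add (t2.smul 4)))))))))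

theorem exists_lv (n : ℤ) [Hyp n] : ∃ l v : ℕ, l.Prime ∧ l ∣ nn n ∧ l ^ v ∣ nn n ∧
    ¬ l ^ (v + 1) ∣ nn n := by
  obtain ⟨l, hl, hd⟩ := Nat.exists_prime_and_dvd (show nn n ≠ 1 by
    have := two_le_nn n
    omega)
  have hf : FiniteMultiplicity l (nn n) := Nat.finiteMultiplicity_iff.2
    ⟨hl.one_lt.ne', by have := two_le_nn n; omega⟩
  exact ⟨l, multiplicity l (nn n), hl, hd, pow_multiplicity_dvd _ _,
    hf.not_pow_dvd_of_multiplicity_lt (Nat.lt_succ_self _)⟩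

theorem ED.sq {α : Type} {f g : (α → ℤ) → ℤ} (hf : ET n f) (hg : ET n g) :
    ED n (fun v => g v = f v * f v) := by
  obtain ⟨l, v, hl, h1, h2, h3⟩ := exists_lv n
  have hc := cc_cert hl h1 h2 h3
  refine (ED.pred2 (ed_osq l v) ((hf.smul (l : ℤ)).add (ET.const 1))
    (((hg.smul ((l : ℤ) ^ 2)).add (hf.smul (2 * l))).add (ET.const 1))).congr fun w => ?_
  exact (sq_iff l hl _ hc (f w) (g w)).symm

theorem ed_mul : ED n (fun v : Fin 3 → ℤ => v 2 = v 0 * v 1) := by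
  have x : ET n (fun w : Fin 3 ⊕ Fin 2 → ℤ => w (Sum.inl 0)) := ET.var _
  have y : ET n (fun w : Fin 3 ⊕ Fin 2 → ℤ => w (Sum.inl 1)) := ET.var _
  have z : ET n (fun w : Fin 3 ⊕ Fin 2 → ℤ => w (Sum.inl 2)) := ET.var _
  have p : ET n (fun w : Fin 3 ⊕ Fin 2 → ℤ => w (Sum.inr 0)) := ET.var _
  have q : ET n (fun w : Fin 3 ⊕ Fin 2 → ℤ => w (Sum.inr 1)) := ET.var _
  refine (ED.exs ((ED.sq x p).and ((ED.sq y q).and
    (ED.sq (x.add y) ((p.add q).add (z.smul 2)))))).congr fun v => ?_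
  constructor
  · intro h
    refine ⟨![v 0 * v 0, v 1 * v 1], rfl, rfl, ?_⟩
    change v 0 * v 0 + v 1 * v 1 + 2 * v 2 = (v 0 + v 1) * (v 0 + v 1)
    rw [h]; ring
  · rintro ⟨t, h1, h2, h3⟩
    change t 0 = v 0 * v 0 at h1
    change t 1 = v 1 * v 1 at h2
    change t 0 + t 1 + 2 * v 2 = (v 0 + v 1) * (v 0 + v 1) at h3
    rw [h1, h2] at h3
    have : 2 * v 2 = 2 * (v 0 * v 1) := by linear_combination h3
    linarith

end Pool.Agent.H747BS
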