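import Mathlib
import Pool.Agent.H747BS.A5
import Pool.Agent.Helper844.Sys

/-!
Recursively enumerable sets reduce to systems of equations in `BS(1,n)`.
-/

set_option autoImplicit false
set_option linter.unusedSectionVars false

namespace Pool.Agent.H747BS

variable {b : ℤ} [Hyp b]

open Pool.Agent.Helper844.Sys

theorem ED.true' {α : Type} : ED b (fun _ : α → ℤ => True) := ⟨_, GD.true', fun _ => Iff.rfl⟩

theorem ed_eqn {V : Type} (q : Eqn V) : ED b (fun v : V → ℤ => q.Holds v) := by
  have xi : ET b (fun w : V ⊕ Fin 1 → ℤ => w (Sum.inl q.i)) := ET.var _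
  have xj : ET b (fun w : V ⊕ Fin 1 → ℤ => w (Sum.inl q.j)) := ET.var _
  have xk : ET b (fun w : V ⊕ Fin 1 → ℤ => w (Sum.inl q.k)) := ET.var _
  have xl : ET b (fun w : V ⊕ Fin 1 → ℤ => w (Sum.inl q.l)) := ET.var _
  have xm : ET b (fun w : V ⊕ Fin 1 → ℤ => w (Sum.inl q.m)) := ET.var _
  have p : ET b (fun w : V ⊕ Fin 1 → ℤ => w (Sum.inr 0)) := ET.var _
  have h1 : ED b (fun w : V ⊕ Fin 1 → ℤ => w (Sum.inr 0) = w (Sum.inl q.i) * w (Sum.inl q.j)) :=
    ED.pred3 (R := fun x y z => z = x * y) ed_mul xi xj p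
  have h2 := ED.eq (((((p.smul q.e).add (xk.smul q.a)).add (xl.smul q.b)).add
    (xm.smul q.c)).add (ET.const q.d)) (ET.const 0)
  refine (ED.exs (h1.and h2)).congr fun v => ?_
  constructor
  · intro h
    exact ⟨fun _ => v q.i * v q.j, rfl, h⟩
  · rintro ⟨t, h3, h4⟩
    change t 0 = v q.i * v q.j at h3
    change q.e * t 0 + q.a * v q.k + q.b * v q.l + q.c * v q.m + q.d = 0 at h4
    rw [h3] at h4
    exact h4

theorem ed_sys {V : Type} (L : List (Eqn V)) : ED b (fun v : V → ℤ => ∀ q ∈ L, q.Holds v) := by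
  induction L with
  | nil => exact ED.true'.congr fun v => by simp
  | cons a l ih => exact ((ed_eqn a).and ih).congr fun v => by simp

/-- the format of the frozen statement -/
abbrev Wd : Type := List ((Fin 2 ⊕ ℕ) × Bool)

/-- evaluation in the frozen format -/
def evw (f : ℕ → G b) (w : Wd) : G b :=
  FreeGroup.lift (Sum.elim (fun i : Fin 2 => (PresentedGroup.of i : G b)) f) (FreeGroup.mk w)

/-- the word `x_k t ^ (4 n - 1)` -/
def w0 (k n : ℕ) : Wd :=
  (Sum.inr k, true) :: (Sum.inl 1, false) :: (List.range (4 * n)).map (fun _ => (Sum.inl 1, true))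

theorem evw_cons (f : ℕ → G b) (c : (Fin 2 ⊕ ℕ) × Bool) (w : Wd) :
    evw f (c :: w) = evw f [c] * evw f w := by
  unfold evw
  rw [← map_mul, FreeGroup.mul_mk]
  rfl

theorem evw_w0 (f : ℕ → G b) (k n : ℕ) : evw f (w0 k n) = 1 ↔ f k = (gt b) ^ (1 - 4 * (n : ℤ)) := by
  have h1 : ∀ m : ℕ, evw f ((List.range m).map (fun _ => (Sum.inl 1, true))) = (gt b) ^ m := by
    intro m
    induction m with
    | zero => simp [evw]
    | succ m ih =>
      rw [List.map_const', List.length_range] at ih ⊢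
      rw [List.replicate_succ, evw_cons, ih, pow_succ']
      congr 1
  unfold w0
  rw [evw_cons f (Sum.inr k, true), evw_cons f (Sum.inl 1, false), h1]
  have e1 : evw f [(Sum.inr k, true)] = f k := by simp [evw]
  have e2 : evw f [(Sum.inl 1, false)] = (gt b)⁻¹ := by simp [evw, gt]
  rw [e1, e2]
  have e3 : (gt b)⁻¹ * (gt b) ^ (4 * n) = ((gt b) ^ (1 - 4 * (n : ℤ)))⁻¹ := by
    rw [← zpow_neg, ← zpow_natCast, ← zpow_neg_one, ← zpow_add]
    congr 1
    push_cast
    ring
  rw [e3, mul_inv_eq_one]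

theorem comp_sys (k : ℕ) (L : List Wd) : Computable (fun n => w0 k n :: L) := by
  apply Primrec.to_comp
  refine Primrec.list_cons.comp ?_ (Primrec.const L)
  refine Primrec.list_cons.comp (Primrec.const _) (Primrec.list_cons.comp (Primrec.const _) ?_)
  refine Primrec.list_map ?_ (Primrec.const _).to₂
  exact Primrec.list_range.comp (Primrec.nat_mul.comp (Primrec.const 4) Primrec.id)

theorem evw_map {V : Type} (g : V → ℕ) (f : ℕ → G b) (w : FreeGroup (Fin 2 ⊕ V)) :
    evw f (FreeGroup.map (Sum.map id g) w).toWord = ev (f ∘ g) w := by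
  unfold evw
  rw [FreeGroup.mk_toWord]
  have : (FreeGroup.lift (Sum.elim (fun i : Fin 2 => (PresentedGroup.of i : G b)) f)).comp
      (FreeGroup.map (Sum.map id g)) = ev (f ∘ g) := by
    apply FreeGroup.ext_hom
    intro c
    rcases c with c | c
    · simp [ev]
    · simp [ev]
  rw [← this]
  rfl

/-- every recursively enumerable set reduces to systems of equations -/
theorem reduction (S : ℕ → Prop) (hS : REPred S) : ∃ (k : ℕ) (L : List Wd), ∀ n,
    S n ↔ ∃ f : ℕ → G b, ∀ w ∈ w0 k n :: L, evw f w = 1 := by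
  obtain ⟨V, _, f0, L0, h0⟩ := exists_system S (Pool.Agent.Helper844.Dio.dprm hS)
  have h1 : ED b (fun w : Unit ⊕ V → ℤ => w (Sum.inr f0) = w (Sum.inl ()) ∧
      ∀ q ∈ L0, q.Holds (fun c => w (Sum.inr c))) :=
    (ED.eq (ET.var _) (ET.var _)).and ((ed_sys L0).subst (fun c => ET.var (Sum.inr c)))
  obtain ⟨T, ⟨β, _, L, hL⟩, hT⟩ := ED.exs h1
  let e := Fintype.equivFin (Unit ⊕ β)
  let g : Unit ⊕ β → ℕ := fun x => (e x).val
  refine ⟨g (Sum.inl ()), L.map (fun w => (FreeGroup.map (Sum.map id g) w).toWord), fun n => ?_⟩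
  have h2 : S n ↔ T (pw (fun _ => 1 - 4 * (n : ℤ))) := by
    rw [← hT]
    have h3 := h0 (1 - 4 * (n : ℤ))
    constructor
    · intro hs
      exact h3.2 ⟨n, hs, rfl⟩
    · intro hs
      obtain ⟨n', hs', e'⟩ := h3.1 hs
      have : n' = n := by omega
      rw [← this]
      exact hs'
  rw [h2, hL]
  constructor
  · rintro ⟨y, hc⟩
    let x : ℕ → G b := fun m => if h : m < Fintype.card (Unit ⊕ β) then
      Sum.elim (pw (fun _ => 1 - 4 * (n : ℤ))) y (e.symm ⟨m, h⟩) else 1
    have xg : x ∘ g = Sum.elim (pw (fun _ => 1 - 4 * (n : ℤ))) y := by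
      funext z
      simp only [Function.comp, x, g]
      rw [dif_pos (e z).2]
      simp
    refine ⟨x, ?_⟩
    intro w hw
    rcases List.mem_cons.1 hw with rfl | hw'
    · rw [evw_w0]
      exact congrFun xg (Sum.inl ())
    · rw [List.mem_map] at hw'
      obtain ⟨w', hw'', rfl⟩ := hw'
      rw [evw_map, xg]
      exact hc w' hw''
  · rintro ⟨x, hx⟩
    have hk := (evw_w0 x _ _).1 (hx _ List.mem_cons_self)
    refine ⟨fun b => x (g (Sum.inr b)), ?_⟩
    intro w hw
    have := hx _ (List.mem_cons_of_mem _ (List.mem_map_of_mem hw))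
    rw [evw_map] at this
    convert this using 2
    congr 1
    funext z
    rcases z with z | z
    · exact hk.symm
    · rfl

theorem exists_re : ∃ p : ℕ → Prop, REPred p ∧ ¬ ComputablePred p := by
  refine ⟨fun n => ((Denumerable.ofNat Nat.Partrec.Code n).eval 0).Dom, ?_, ?_⟩
  · have h := Nat.Partrec.Code.eval_part.comp
      (Computable.ofNat Nat.Partrec.Code) (Computable.const (0 : ℕ))
    exact Partrec.dom_re h
  · intro h
    refine ComputablePred.halting_problem 0 ?_
    have : ManyOneReducible (fun c : Nat.Partrec.Code => (Nat.Partrec.Code.eval c 0).Dom)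
        (fun n => ((Denumerable.ofNat Nat.Partrec.Code n).eval 0).Dom) := by
      refine ⟨Encodable.encode, Computable.encode, ?_⟩
      intro c
      simp [Denumerable.ofNat_encode]
    exact ComputablePred.computable_of_manyOneReducible this h

/-- solvability of systems of equations in `BS(1,n)` is undecidable -/
theorem undecidable (b : ℤ) [Hyp b] : ¬ ComputablePred (fun S : List Wd => ∃ f : ℕ → G b, ∀ w ∈ S, evw f w = 1) := by
  intro h
  obtain ⟨p, hp, hn⟩ := exists_re
  obtain ⟨k, L, hL⟩ := reduction (b := b) p hp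
  apply hn
  refine ComputablePred.computable_of_manyOneReducible ?_ h
  exact ⟨fun n => w0 k n :: L, comp_sys k L, hL⟩

end Pool.Agent.H747BS
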